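import Pool.Agent.H32.TF.Rank

/-!
Estimates for the bound and for the ranks.
-/

set_option autoImplicit false
set_option linter.unusedVariables false
set_option linter.unusedSectionVars false

namespace Pool.Agent.H32.TF

open Finset

theorem low_real (q r : ℝ) (hr : 0 ≤ r) (hqr : r ≤ q) (hn : 4 ≤ q + r) :
    ((q + 1) ^ 2 / ((q + 1) ^ 2 + (r + 1) ^ 2) - 8 / (q + r + 2)) * ((q + r + 1) * (q + r + 2))
      ≤ q * (q + 1) + 2 * ((r + 1) * (q + 1)) * (q ^ 2 / (q ^ 2 + r ^ 2) - 8 / (q + r)) := by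
  have hq : 0 < q := by linarith
  set g' := (q + 1) ^ 2 / ((q + 1) ^ 2 + (r + 1) ^ 2) with hg'
  set g := q ^ 2 / (q ^ 2 + r ^ 2) with hg
  have h1 : g' * ((q + 1) ^ 2 + (r + 1) ^ 2) = (q + 1) ^ 2 := by
    rw [hg']; field_simp
  have h2 : g' ≤ g := by
    rw [hg', hg, div_le_div_iff₀ (by positivity) (by positivity)]
    have : r * (q + 1) ≤ q * (r + 1) := by nlinarith
    have h0 : 0 ≤ r * (q + 1) := by positivity
    nlinarith [mul_le_mul this this h0 (by nlinarith)]
  have h3 : q + 1 ≤ g' * (q + r + 2) := by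
    rw [hg', div_mul_eq_mul_div, le_div_iff₀ (by positivity)]
    nlinarith [mul_nonneg (mul_nonneg (by linarith : 0 ≤ q + 1) (by linarith : 0 ≤ r + 1))
      (by linarith : 0 ≤ q - r)]
  have h4 : 8 / (q + r + 2) * ((q + r + 1) * (q + r + 2)) = 8 * (q + r + 1) := by
    field_simp
  have h5 : 2 * ((r + 1) * (q + 1)) * (8 / (q + r)) ≤ 4 * (q + r) + 20 := by
    have h6 : 2 * ((r + 1) * (q + 1)) * (8 / (q + r)) = 16 * ((r + 1) * (q + 1)) / (q + r) := by
      ring
    rw [h6, div_le_iff₀ (by linarith)]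
    nlinarith [sq_nonneg (q - r), mul_nonneg (by linarith : 0 ≤ q + r - 4) (by linarith : 0 ≤ q + r)]
  have h7 : 2 * ((r + 1) * (q + 1)) * g' ≤ 2 * ((r + 1) * (q + 1)) * g :=
    mul_le_mul_of_nonneg_left h2 (by positivity)
  nlinarith [h1, h3, h4, h5, h7]

theorem low : ∀ (r q : ℕ), r ≤ q →
    ((q + r).choose r : ℝ) * ((q : ℝ) ^ 2 / ((q : ℝ) ^ 2 + (r : ℝ) ^ 2) - 8 / ((q : ℝ) + r))
      ≤ (s (q + r) r : ℝ) := by
  intro r
  induction r with
  | zero =>
    intro q _
    match q with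
    | 0 => simp [s]
    | 1 => simp [s]
    | (q + 2) =>
      have e : s (q + 2 + 0) 0 = 1 := rfl
      rw [e]
      have h1 : ((q + 2 : ℕ) : ℝ) ^ 2 / (((q + 2 : ℕ) : ℝ) ^ 2 + ((0 : ℕ) : ℝ) ^ 2) ≤ 1 := by
        apply div_le_one_of_le₀
        · simp
        · positivity
      have h2 : 0 ≤ 8 / (((q + 2 : ℕ) : ℝ) + ((0 : ℕ) : ℝ)) := by positivity
      rw [Nat.choose_zero_right, Nat.cast_one, one_mul]
      linarith
  | succ r ih =>
    intro q hq
    obtain ⟨q, rfl⟩ : ∃ q', q = q' + 1 := ⟨q - 1, by omega⟩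
    have ih' := ih q (by omega)
    have e0 : q + 1 + (r + 1) = q + r + 2 := by omega
    rw [e0]
    have es : (s (q + r + 2) (r + 1) : ℝ) = ((q + r).choose (r + 1) : ℝ) + 2 * (s (q + r) r : ℝ) := by
      show (((q + r).choose (r + 1) + 2 * s (q + r) r : ℕ) : ℝ) = _
      push_cast; ring
    rw [es]
    set c : ℝ := ((q + r + 2).choose (r + 1) : ℝ) with hc
    have hc0 : 0 ≤ c := by rw [hc]; positivity
    have i1 : ((q + r).choose (r + 1) : ℝ) * (((q : ℝ) + r + 1) * ((q : ℝ) + r + 2))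
        = c * ((q : ℝ) * ((q : ℝ) + 1)) := by
      have a1 := Nat.choose_mul_succ_eq (q + r) (r + 1)
      have a2 := Nat.choose_mul_succ_eq (q + r + 1) (r + 1)
      have b1 : q + r + 1 - (r + 1) = q := by omega
      have b2 : q + r + 1 + 1 - (r + 1) = q + 1 := by omega
      rw [b1] at a1
      rw [b2] at a2
      have a1' : ((q + r).choose (r + 1) : ℝ) * ((q : ℝ) + r + 1)
          = ((q + r + 1).choose (r + 1) : ℝ) * (q : ℝ) := by exact_mod_cast a1
      have a2' : ((q + r + 1).choose (r + 1) : ℝ) * ((q : ℝ) + r + 2)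
          = c * ((q : ℝ) + 1) := by
        have : ((q + r + 1).choose (r + 1) : ℝ) * ((q : ℝ) + r + 1 + 1)
          = ((q + r + 1 + 1).choose (r + 1) : ℝ) * ((q : ℝ) + 1) := by exact_mod_cast a2
        rw [hc]
        linear_combination this
      linear_combination ((q : ℝ) + r + 2) * a1' + (q : ℝ) * a2'
    have i2 : ((q + r).choose r : ℝ) * (((q : ℝ) + r + 1) * ((q : ℝ) + r + 2))
        = c * (((r : ℝ) + 1) * ((q : ℝ) + 1)) := by
      have a1 := Nat.add_one_mul_choose_eq (q + r) r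
      have a2 := Nat.choose_mul_succ_eq (q + r + 1) (r + 1)
      have b2 : q + r + 1 + 1 - (r + 1) = q + 1 := by omega
      rw [b2] at a2
      have a1' : ((q : ℝ) + r + 1) * ((q + r).choose r : ℝ)
          = ((q + r + 1).choose (r + 1) : ℝ) * ((r : ℝ) + 1) := by
        have : (((q + r + 1) * (q + r).choose r : ℕ) : ℝ)
          = (((q + r + 1).choose (r + 1) * (r + 1) : ℕ) : ℝ) := by exact_mod_cast a1
        push_cast at this
        linear_combination this
      have a2' : ((q + r + 1).choose (r + 1) : ℝ) * ((q : ℝ) + r + 2)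
          = c * ((q : ℝ) + 1) := by
        have : ((q + r + 1).choose (r + 1) : ℝ) * ((q : ℝ) + r + 1 + 1)
          = ((q + r + 1 + 1).choose (r + 1) : ℝ) * ((q : ℝ) + 1) := by exact_mod_cast a2
        rw [hc]
        linear_combination this
      linear_combination ((q : ℝ) + r + 2) * a1' + ((r : ℝ) + 1) * a2'
    have e1 : ((q + 1 : ℕ) : ℝ) = (q : ℝ) + 1 := by push_cast; ring
    have e2 : ((r + 1 : ℕ) : ℝ) = (r : ℝ) + 1 := by push_cast; ring
    rw [e1, e2]
    have e3 : (q : ℝ) + 1 + ((r : ℝ) + 1) = (q : ℝ) + r + 2 := by ring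
    rw [e3]
    have hs0 : 0 ≤ ((q + r).choose (r + 1) : ℝ) + 2 * (s (q + r) r : ℝ) := by positivity
    rcases Nat.lt_or_ge (q + r) 4 with hlt | hge
    · -- small
      have h1 : ((q : ℝ) + 1) ^ 2 / (((q : ℝ) + 1) ^ 2 + ((r : ℝ) + 1) ^ 2) ≤ 1 := by
        apply div_le_one_of_le₀
        · nlinarith [sq_nonneg ((r : ℝ) + 1)]
        · positivity
      have h2 : 1 ≤ 8 / ((q : ℝ) + r + 2) := by
        rw [le_div_iff₀ (by positivity)]
        have : (q : ℝ) + r < 4 := by exact_mod_cast hlt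
        linarith
      have h3 : c * (((q : ℝ) + 1) ^ 2 / (((q : ℝ) + 1) ^ 2 + ((r : ℝ) + 1) ^ 2)
          - 8 / ((q : ℝ) + r + 2)) ≤ 0 :=
        mul_nonpos_of_nonneg_of_nonpos hc0 (by linarith)
      linarith
    · have hge' : (4 : ℝ) ≤ (q : ℝ) + r := by exact_mod_cast hge
      have hqr : (r : ℝ) ≤ (q : ℝ) := by
        have : r ≤ q := by omega
        exact_mod_cast this
      have key := low_real (q : ℝ) (r : ℝ) (by positivity) hqr hge'
      set X : ℝ := ((q : ℝ) + r + 1) * ((q : ℝ) + r + 2) with hX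
      have hXpos : 0 < X := by rw [hX]; positivity
      set u := ((q : ℝ) + 1) ^ 2 / (((q : ℝ) + 1) ^ 2 + ((r : ℝ) + 1) ^ 2)
          - 8 / ((q : ℝ) + r + 2) with hu
      set v := (q : ℝ) ^ 2 / ((q : ℝ) ^ 2 + (r : ℝ) ^ 2) - 8 / ((q : ℝ) + r) with hv
      have h4 : c * (((r : ℝ) + 1) * ((q : ℝ) + 1)) * v ≤ (s (q + r) r : ℝ) * X := by
        have := mul_le_mul_of_nonneg_right ih' hXpos.le
        calc c * (((r : ℝ) + 1) * ((q : ℝ) + 1)) * v
            = ((q + r).choose r : ℝ) * v * X := by rw [← i2]; ring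
          _ ≤ _ := this
      have h5 : c * (u * X) ≤ c * ((q : ℝ) * ((q : ℝ) + 1)
          + 2 * (((r : ℝ) + 1) * ((q : ℝ) + 1)) * v) := mul_le_mul_of_nonneg_left key hc0
      have h6 : (c * u) * X ≤ (((q + r).choose (r + 1) : ℝ) + 2 * (s (q + r) r : ℝ)) * X := by
        nlinarith [h4, h5, i1]
      exact le_of_mul_le_mul_right h6 hXpos

/-- the tail of the binomial expansion -/
theorem tail (n r : ℕ) (x t : ℝ) (hx : 0 ≤ x) (ht : 1 ≤ t) :
    (1 + x) ^ n * t ^ (r + 1)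
      ≤ t ^ (r + 1) * (∑ k ∈ range (r + 1), (n.choose k : ℝ) * x ^ k) + (1 + t * x) ^ n := by
  have e1 : ∀ y : ℝ, (1 + y) ^ n = ∑ k ∈ range (n + 1), (n.choose k : ℝ) * y ^ k := by
    intro y
    rw [add_comm, add_pow]
    apply Finset.sum_congr rfl
    intro k _
    rw [one_pow, mul_one, mul_comm]
  rw [e1 x, e1 (t * x)]
  have ht0 : 0 < t := by linarith
  rcases le_total (r + 1) (n + 1) with h | h
  · rw [← Finset.sum_range_add_sum_Ico (fun k => (n.choose k : ℝ) * x ^ k) h,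
      ← Finset.sum_range_add_sum_Ico (fun k => (n.choose k : ℝ) * (t * x) ^ k) h]
    have h1 : 0 ≤ ∑ k ∈ range (r + 1), (n.choose k : ℝ) * (t * x) ^ k :=
      Finset.sum_nonneg (fun k _ => by positivity)
    have h2 : (∑ k ∈ Ico (r + 1) (n + 1), (n.choose k : ℝ) * x ^ k) * t ^ (r + 1)
        ≤ ∑ k ∈ Ico (r + 1) (n + 1), (n.choose k : ℝ) * (t * x) ^ k := by
      rw [Finset.sum_mul]
      apply Finset.sum_le_sum
      intro k hk
      rw [Finset.mem_Ico] at hk
      rw [mul_pow]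
      have h3 : t ^ (r + 1) ≤ t ^ k := pow_le_pow_right₀ ht hk.1
      have h4 : 0 ≤ (n.choose k : ℝ) * x ^ k := by positivity
      nlinarith [mul_le_mul_of_nonneg_left h3 h4]
    nlinarith [h1, h2]
  · have h1 : ∑ k ∈ range (n + 1), (n.choose k : ℝ) * x ^ k
        ≤ ∑ k ∈ range (r + 1), (n.choose k : ℝ) * x ^ k :=
      Finset.sum_le_sum_of_subset_of_nonneg (Finset.range_subset_range.2 h)
        (fun i _ _ => by positivity)
    have h2 : 0 ≤ ∑ k ∈ range (n + 1), (n.choose k : ℝ) * (t * x) ^ k :=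
      Finset.sum_nonneg (fun k _ => by positivity)
    have h3 : 0 ≤ t ^ (r + 1) := by positivity
    nlinarith [mul_le_mul_of_nonneg_left h1 h3]

/-- the upper bound from the inequality -/
theorem upper (q r : ℕ) (hrq : r + 2 ≤ q) (m C d : ℝ) (hm : 0 ≤ m)
    (hP : ∀ x : ℝ, 0 ≤ x → m * ((1 + x ^ 2) * ∑ k ∈ range (r + 1), ((r + q).choose k : ℝ) * x ^ k)
      ≤ C * (1 + x) ^ (r + q))
    (hd0 : 0 < d) (hd1 : d ≤ 1) (hd2 : 2 * Real.log ((r : ℝ) + q) ≤ ((r : ℝ) + q) * d ^ 2)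
    (hdr : ((r : ℝ) + q) * d ≤ r) :
    m * (1 - 1 / ((r : ℝ) + q))
      ≤ C * (1 + 8 * d) * ((q : ℝ) ^ 2 / ((q : ℝ) ^ 2 + (r : ℝ) ^ 2)) := by
  set n : ℝ := (r : ℝ) + q with hn
  have hr0 : (0 : ℝ) ≤ r := by positivity
  have hrq' : (r : ℝ) + 2 ≤ q := by exact_mod_cast hrq
  have hq0 : (0 : ℝ) < q := by linarith
  have hn0 : 0 < n := by rw [hn]; linarith
  set den : ℝ := q + n * d with hden
  have hden0 : 0 < den := by rw [hden]; positivity
  set x : ℝ := (r - n * d) / den with hx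
  have hx0 : 0 ≤ x := div_nonneg (by linarith) hden0.le
  have h1x : 1 + x = n / den := by
    rw [hx, hn]; field_simp; rw [hden, hn]; ring
  have h1x0 : 0 < 1 + x := by linarith
  have htx : 1 + (1 + d) * x = (1 + x) * (1 + d * (r - n * d) / n) := by
    rw [h1x]
    rw [hx]
    field_simp
    rw [hden, hn]; ring
  -- the tail
  have h1 := tail (r + q) r x (1 + d) hx0 (by linarith)
  set F := ∑ k ∈ range (r + 1), ((r + q).choose k : ℝ) * x ^ k with hF
  have hF0 : 0 ≤ F := Finset.sum_nonneg (fun k _ => by positivity)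
  have h2 : (1 + (1 + d) * x) ^ (r + q) ≤ (1 + x) ^ (r + q) * Real.exp (d * (r - n * d)) := by
    rw [htx, mul_pow]
    apply mul_le_mul_of_nonneg_left _ (by positivity)
    have h3 : 1 + d * (r - n * d) / n ≤ Real.exp (d * (r - n * d) / n) := by
      have := Real.add_one_le_exp (d * (r - n * d) / n)
      linarith
    have h4 : 0 ≤ 1 + d * (r - n * d) / n := by
      have : 0 ≤ d * (r - n * d) / n := div_nonneg (mul_nonneg hd0.le (by linarith)) hn0.le
      linarith
    calc (1 + d * (r - n * d) / n) ^ (r + q)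
        ≤ (Real.exp (d * (r - n * d) / n)) ^ (r + q) := pow_le_pow_left₀ h4 h3 _
      _ = Real.exp (d * (r - n * d)) := by
          rw [← Real.exp_nat_mul]
          congr 1
          have : ((r + q : ℕ) : ℝ) = n := by rw [hn]; push_cast; ring
          rw [this]
          field_simp
  have h3 : Real.exp ((d - d ^ 2) * (r + 1)) ≤ (1 + d) ^ (r + 1) := by
    have h4 : Real.exp (d - d ^ 2) ≤ 1 + d := by
      have h5 := Real.add_one_le_exp (-(d - d ^ 2))
      have h6 : 1 ≤ (1 + d) * (1 - d + d ^ 2) := by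
        have : (1 + d) * (1 - d + d ^ 2) = 1 + d ^ 3 := by ring
        rw [this]
        have : 0 ≤ d ^ 3 := by positivity
        linarith
      have h7 : 1 ≤ (1 + d) * Real.exp (-(d - d ^ 2)) := by
        refine h6.trans ?_
        apply mul_le_mul_of_nonneg_left _ (by linarith)
        linarith
      have h8 : Real.exp (-(d - d ^ 2)) * Real.exp (d - d ^ 2) = 1 := by
        rw [← Real.exp_add]; simp
      have h9 : 0 < Real.exp (d - d ^ 2) := Real.exp_pos _
      calc Real.exp (d - d ^ 2) = 1 * Real.exp (d - d ^ 2) := by ring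
        _ ≤ ((1 + d) * Real.exp (-(d - d ^ 2))) * Real.exp (d - d ^ 2) :=
            mul_le_mul_of_nonneg_right h7 h9.le
        _ = 1 + d := by rw [mul_assoc, h8, mul_one]
    calc Real.exp ((d - d ^ 2) * (r + 1)) = (Real.exp (d - d ^ 2)) ^ (r + 1) := by
          rw [← Real.exp_nat_mul]
          congr 1
          push_cast; ring
      _ ≤ (1 + d) ^ (r + 1) := pow_le_pow_left₀ (Real.exp_pos _).le h4 _
  have h4 : Real.exp (d * (r - n * d)) ≤ (1 / n) * (1 + d) ^ (r + 1) := by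
    have h5 : Real.exp (d * (r - n * d)) ≤ (1 / n) * Real.exp ((d - d ^ 2) * (r + 1)) := by
      have h6 : (1 / n) = Real.exp (- Real.log n) := by
        rw [Real.exp_neg, Real.exp_log hn0, one_div]
      rw [h6, ← Real.exp_add]
      apply Real.exp_le_exp.2
      have h7 : (r : ℝ) + 1 ≤ n / 2 := by rw [hn]; linarith
      have h8 : d ^ 2 * ((r : ℝ) + 1) ≤ d ^ 2 * (n / 2) :=
        mul_le_mul_of_nonneg_left h7 (by positivity)
      nlinarith [h8, hd2]
    refine h5.trans ?_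
    apply mul_le_mul_of_nonneg_left h3 (by positivity)
  have ht0 : 0 < (1 + d) ^ (r + 1) := by positivity
  have hpow0 : 0 < (1 + x) ^ (r + q) := by positivity
  have h5 : (1 + x) ^ (r + q) * (1 - 1 / n) ≤ F := by
    have h6 : (1 + x) ^ (r + q) * (1 + d) ^ (r + 1)
        ≤ (1 + d) ^ (r + 1) * F + (1 + x) ^ (r + q) * ((1 / n) * (1 + d) ^ (r + 1)) := by
      refine h1.trans ?_
      have := mul_le_mul_of_nonneg_left h4 hpow0.le
      linarith
    have h7 : ((1 + x) ^ (r + q) * (1 - 1 / n)) * (1 + d) ^ (r + 1) ≤ F * (1 + d) ^ (r + 1) := by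
      linarith
    exact le_of_mul_le_mul_right h7 ht0
  -- the inequality at `x`
  have h6 := hP x hx0
  have h7 : m * (1 - 1 / n) * (1 + x ^ 2) ≤ C := by
    have h8 : (m * (1 - 1 / n) * (1 + x ^ 2)) * (1 + x) ^ (r + q) ≤ C * (1 + x) ^ (r + q) := by
      refine le_trans ?_ h6
      have := mul_le_mul_of_nonneg_left h5 (mul_nonneg hm (by positivity : (0 : ℝ) ≤ 1 + x ^ 2))
      linarith
    exact le_of_mul_le_mul_right h8 hpow0
  -- comparison of `x` with `r / q`
  have hg : (q : ℝ) ^ 2 / ((q : ℝ) ^ 2 + (r : ℝ) ^ 2) = 1 / (1 + (r / q) ^ 2) := by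
    field_simp
  rw [hg]
  have hxy : (r : ℝ) / q - x ≤ 4 * d := by
    have : (r : ℝ) / q - x = n ^ 2 * d / (q * den) := by
      rw [hx]
      field_simp
      rw [hden, hn]; ring
    rw [this, div_le_iff₀ (by positivity)]
    have h8 : n ^ 2 ≤ 4 * (q * den) := by
      have h9 : n ≤ 2 * q := by rw [hn]; linarith
      have h10 : (q : ℝ) ≤ den := by rw [hden]; nlinarith
      nlinarith
    nlinarith
  have hx1 : (r : ℝ) / q ≤ 1 := by
    rw [div_le_one hq0]; linarith
  have hxle : x ≤ (r : ℝ) / q := by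
    rw [hx, div_le_div_iff₀ hden0 hq0]
    rw [hden]
    nlinarith [mul_nonneg hn0.le hd0.le, mul_nonneg hr0 (mul_nonneg hn0.le hd0.le),
      mul_nonneg hq0.le (mul_nonneg hn0.le hd0.le)]
  have h8 : 1 + ((r : ℝ) / q) ^ 2 ≤ (1 + 8 * d) * (1 + x ^ 2) := by
    have h9 : ((r : ℝ) / q) ^ 2 - x ^ 2 ≤ 8 * d := by
      have : ((r : ℝ) / q) ^ 2 - x ^ 2 = ((r : ℝ) / q - x) * ((r : ℝ) / q + x) := by ring
      rw [this]
      have h10 : (r : ℝ) / q + x ≤ 2 := by linarith
      have h11 : 0 ≤ (r : ℝ) / q - x := by linarith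
      nlinarith
    nlinarith [mul_nonneg hd0.le (sq_nonneg x)]
  have hC0 : 0 ≤ C := by
    have h9 : 0 ≤ 1 - 1 / n := by
      have : 1 / n ≤ 1 := by
        rw [div_le_one hn0, hn]; linarith
      linarith
    have : 0 ≤ m * (1 - 1 / n) * (1 + x ^ 2) := by positivity
    linarith
  rw [mul_one_div, le_div_iff₀ (by positivity)]
  have h9 : 0 ≤ m * (1 - 1 / n) := by
    apply mul_nonneg hm
    have : 1 / n ≤ 1 := by
      rw [div_le_one hn0, hn]; linarith
    linarith
  calc m * (1 - 1 / n) * (1 + ((r : ℝ) / q) ^ 2)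
      ≤ m * (1 - 1 / n) * ((1 + 8 * d) * (1 + x ^ 2)) := mul_le_mul_of_nonneg_left h8 h9
    _ = (m * (1 - 1 / n) * (1 + x ^ 2)) * (1 + 8 * d) := by ring
    _ ≤ C * (1 + 8 * d) := mul_le_mul_of_nonneg_right h7 (by positivity)

end Pool.Agent.H32.TF
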