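import Mathlib

/-!
Number of orders in which one set comes before another one.
-/

set_option autoImplicit false
set_option linter.unusedVariables false
set_option linter.unusedSectionVars false

namespace Pool.Agent.H32.TF

open Finset

variable {α : Type} [Fintype α] [DecidableEq α]

/-- the orders in which `C` comes before `D` -/
def good (C D : Finset α) : Finset (α ≃ Fin (Fintype.card α)) :=
  univ.filter (fun f => ∀ x ∈ C, ∀ y ∈ D, f x < f y)

theorem mem_good (C D : Finset α) (f : α ≃ Fin (Fintype.card α)) :
    f ∈ good C D ↔ ∀ x ∈ C, ∀ y ∈ D, f x < f y := by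
  unfold good
  rw [Finset.mem_filter]
  simp

theorem exists_initial {β : Type} [LinearOrder β] (f : α → β) (hf : Function.Injective f)
    (W : Finset α) : ∀ c : ℕ, c ≤ W.card →
      ∃ T ∈ W.powersetCard c, ∀ x ∈ T, ∀ y ∈ W \ T, f x < f y := by
  intro c
  induction c with
  | zero =>
    intro _
    exact ⟨∅, by simp, by simp⟩
  | succ c ih =>
    intro hc
    obtain ⟨T, hT, hlt⟩ := ih (by omega)
    rw [Finset.mem_powersetCard] at hT
    have hne : (W \ T).Nonempty := by
      rw [← Finset.card_pos, Finset.card_sdiff_of_subset hT.1]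
      omega
    obtain ⟨m, hm, hmin⟩ := Finset.exists_min_image (W \ T) f hne
    rw [Finset.mem_sdiff] at hm
    refine ⟨insert m T, ?_, ?_⟩
    · rw [Finset.mem_powersetCard, Finset.card_insert_of_notMem hm.2, hT.2]
      exact ⟨Finset.insert_subset hm.1 hT.1, rfl⟩
    · intro x hx y hy
      rw [Finset.mem_sdiff, Finset.mem_insert, not_or] at hy
      have hy' : y ∈ W \ T := Finset.mem_sdiff.2 ⟨hy.1, hy.2.2⟩
      rw [Finset.mem_insert] at hx
      rcases hx with rfl | hx
      · exact lt_of_le_of_ne (hmin y hy') (fun h => hy.2.1 (hf h).symm)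
      · exact hlt x hx y hy'

/-- two partitions with parts of the same sizes are related by a permutation -/
theorem exists_perm (T U C D : Finset α) (hTU : Disjoint T U) (hCD : Disjoint C D)
    (h1 : T.card = C.card) (h2 : U.card = D.card) :
    ∃ t : Equiv.Perm α, (∀ x ∈ C, t x ∈ T) ∧ (∀ x ∈ D, t x ∈ U) := by
  classical
  set f : α → Fin 3 := fun x => if x ∈ C then 0 else if x ∈ D then 1 else 2 with hf
  set g : α → Fin 3 := fun x => if x ∈ T then 0 else if x ∈ U then 1 else 2 with hg
  have cf0 : ∀ x, f x = 0 ↔ x ∈ C := by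
    intro x; rw [hf]; dsimp only; split_ifs <;> simp_all
  have cf1 : ∀ x, f x = 1 ↔ x ∈ D := by
    intro x; rw [hf]; dsimp only
    by_cases hx : x ∈ C
    · rw [if_pos hx]
      have := Finset.disjoint_left.1 hCD hx
      simp_all
    · rw [if_neg hx]; split_ifs <;> simp_all
  have cg0 : ∀ x, g x = 0 ↔ x ∈ T := by
    intro x; rw [hg]; dsimp only; split_ifs <;> simp_all
  have cg1 : ∀ x, g x = 1 ↔ x ∈ U := by
    intro x; rw [hg]; dsimp only
    by_cases hx : x ∈ T
    · rw [if_pos hx]
      have := Finset.disjoint_left.1 hTU hx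
      simp_all
    · rw [if_neg hx]; split_ifs <;> simp_all
  have cardf : ∀ c : Fin 3, Fintype.card {x // f x = c} = (univ.filter (fun x => f x = c)).card :=
    fun c => Fintype.card_subtype _
  have cardg : ∀ c : Fin 3, Fintype.card {x // g x = c} = (univ.filter (fun x => g x = c)).card :=
    fun c => Fintype.card_subtype _
  have f0 : (univ.filter (fun x => f x = 0)) = C := by ext x; simp [cf0]
  have f1 : (univ.filter (fun x => f x = 1)) = D := by ext x; simp [cf1]
  have g0 : (univ.filter (fun x => g x = 0)) = T := by ext x; simp [cg0]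
  have g1 : (univ.filter (fun x => g x = 1)) = U := by ext x; simp [cg1]
  have f2 : (univ.filter (fun x => f x = 2)) = (C ∪ D)ᶜ := by
    ext x
    rw [Finset.mem_filter, Finset.mem_compl, Finset.mem_union, ← cf0, ← cf1]
    generalize f x = c
    fin_cases c <;> simp
  have g2 : (univ.filter (fun x => g x = 2)) = (T ∪ U)ᶜ := by
    ext x
    rw [Finset.mem_filter, Finset.mem_compl, Finset.mem_union, ← cg0, ← cg1]
    generalize g x = c
    fin_cases c <;> simp
  have hcard : ∀ c : Fin 3, Fintype.card {x // f x = c} = Fintype.card {x // g x = c} := by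
    intro c
    rw [cardf, cardg]
    fin_cases c
    · show (univ.filter (fun x => f x = 0)).card = (univ.filter (fun x => g x = 0)).card
      rw [f0, g0, h1]
    · show (univ.filter (fun x => f x = 1)).card = (univ.filter (fun x => g x = 1)).card
      rw [f1, g1, h2]
    · show (univ.filter (fun x => f x = 2)).card = (univ.filter (fun x => g x = 2)).card
      rw [f2, g2, Finset.card_compl, Finset.card_compl, Finset.card_union_of_disjoint hCD,
        Finset.card_union_of_disjoint hTU, h1, h2]
  let e : ∀ c : Fin 3, {x // f x = c} ≃ {x // g x = c} := fun c => Fintype.equivOfCardEq (hcard c)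
  let t : Equiv.Perm α :=
    (Equiv.sigmaFiberEquiv f).symm.trans ((Equiv.sigmaCongrRight e).trans (Equiv.sigmaFiberEquiv g))
  have ht : ∀ x, g (t x) = f x := by
    intro x
    show g ((e (f x) ⟨x, rfl⟩ : {y // g y = f x}) : α) = f x
    exact (e (f x) ⟨x, rfl⟩).2
  refine ⟨t, ?_, ?_⟩
  · intro x hx
    rw [← cg0, ht, cf0]; exact hx
  · intro x hx
    rw [← cg1, ht, cf1]; exact hx

theorem card_good_le (T U C D : Finset α) (hTU : Disjoint T U) (hCD : Disjoint C D)
    (h1 : T.card = C.card) (h2 : U.card = D.card) : (good T U).card ≤ (good C D).card := by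
  obtain ⟨t, ht1, ht2⟩ := exists_perm T U C D hTU hCD h1 h2
  apply Finset.card_le_card_of_injOn (fun f => t.trans f)
  · intro f hf
    rw [Finset.mem_coe, mem_good] at hf ⊢
    intro x hx y hy
    exact hf _ (ht1 x hx) _ (ht2 y hy)
  · intro f _ g _ hfg
    ext x
    have := congrArg (fun e : α ≃ Fin (Fintype.card α) => e (t.symm x)) hfg
    simpa using congrArg Fin.val this

theorem card_orders_le (C D : Finset α) (hCD : Disjoint C D) :
    Fintype.card (α ≃ Fin (Fintype.card α))
      ≤ (C.card + D.card).choose C.card * (good C D).card := by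
  classical
  set W := C ∪ D with hW
  have hWc : W.card = C.card + D.card := Finset.card_union_of_disjoint hCD
  have hsub : (univ : Finset (α ≃ Fin (Fintype.card α)))
      ⊆ (W.powersetCard C.card).biUnion (fun T => good T (W \ T)) := by
    intro f _
    obtain ⟨T, hT, hlt⟩ := exists_initial (fun x => f x) f.injective W C.card (by omega)
    rw [Finset.mem_biUnion]
    exact ⟨T, hT, (mem_good _ _ _).2 hlt⟩
  rw [← Finset.card_univ]
  refine (Finset.card_le_card hsub).trans ?_
  refine Finset.card_biUnion_le.trans ?_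
  have : ∀ T ∈ W.powersetCard C.card, (good T (W \ T)).card ≤ (good C D).card := by
    intro T hT
    rw [Finset.mem_powersetCard] at hT
    apply card_good_le _ _ _ _ Finset.disjoint_sdiff hCD hT.2
    rw [Finset.card_sdiff_of_subset hT.1, hT.2, hWc]
    omega
  refine (Finset.sum_le_card_nsmul _ _ _ this).trans ?_
  rw [Finset.card_powersetCard, hWc, smul_eq_mul]

/-- the averaging argument -/
theorem average {ι : Type} (J : Finset ι) (C D : ι → Finset α) (hCD : ∀ i ∈ J, Disjoint (C i) (D i))
    (S : ℕ)
    (h : ∀ f : α ≃ Fin (Fintype.card α),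
      ∑ i ∈ J.filter (fun i => f ∈ good (C i) (D i)), ((C i).card + (D i).card).choose (C i).card ≤ S) :
    J.card ≤ S := by
  classical
  have hpos : 0 < Fintype.card (α ≃ Fin (Fintype.card α)) :=
    Fintype.card_pos_iff.2 ⟨Fintype.equivFin α⟩
  have h1 : J.card * Fintype.card (α ≃ Fin (Fintype.card α))
      ≤ ∑ i ∈ J, ((C i).card + (D i).card).choose (C i).card * (good (C i) (D i)).card := by
    rw [← smul_eq_mul]
    exact Finset.card_nsmul_le_sum _ _ _ (fun i hi => card_orders_le _ _ (hCD i hi))
  have h2 : ∑ i ∈ J, ((C i).card + (D i).card).choose (C i).card * (good (C i) (D i)).card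
      = ∑ f : α ≃ Fin (Fintype.card α), ∑ i ∈ J.filter (fun i => f ∈ good (C i) (D i)),
          ((C i).card + (D i).card).choose (C i).card := by
    simp only [Finset.sum_filter]
    rw [Finset.sum_comm]
    apply Finset.sum_congr rfl
    intro i _
    rw [← Finset.sum_filter, Finset.sum_const, smul_eq_mul, mul_comm]
    congr 2
    ext f
    simp
  have h3 : ∑ f : α ≃ Fin (Fintype.card α), ∑ i ∈ J.filter (fun i => f ∈ good (C i) (D i)),
          ((C i).card + (D i).card).choose (C i).card
      ≤ Fintype.card (α ≃ Fin (Fintype.card α)) * S := by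
    refine (Finset.sum_le_card_nsmul _ _ S (fun f _ => h f)).trans ?_
    rw [Finset.card_univ, smul_eq_mul]
  rw [h2] at h1
  have h4 := h1.trans h3
  rw [mul_comm] at h4
  exact Nat.le_of_mul_le_mul_left h4 hpos

end Pool.Agent.H32.TF
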