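import Pool.Agent.H32.TF.Ring
import Pool.Agent.H32.TF.Ord

/-!
The number of pairs whose intersection lies in a given set of `a + b - 2` points.
-/

set_option autoImplicit false
set_option linter.unusedVariables false
set_option linter.unusedSectionVars false

namespace Pool.Agent.H32.TF

open Finset

theorem core {α ι : Type} [Fintype α] [DecidableEq α] [Fintype ι] [DecidableEq ι]
    (a b : ℕ) (ha : 2 ≤ a) (hab : a ≤ b) (A B : ι → Finset α)
    (hA : ∀ i, (A i).card = a) (hB : ∀ i, (B i).card = b) (hAB : ∀ i, (A i ∩ B i).card = 2)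
    (h : ∀ i j k, i ≠ j → ¬ (A i ∩ B j ⊆ A k ∩ B k)) (Y : Finset α) (hY : Y.card = a + b - 2) :
    (univ.filter (fun i => A i ∩ B i ⊆ Y)).card ≤ s (a + b - 2) (a - 2) := by
  classical
  set J := univ.filter (fun i => A i ∩ B i ⊆ Y) with hJ
  have hJm : ∀ i, i ∈ J ↔ A i ∩ B i ⊆ Y := by
    intro i; rw [hJ, Finset.mem_filter]; simp
  set C : ι → Finset α := fun i => A i \ Y with hC
  set D : ι → Finset α := fun i => B i \ Y with hD
  set U : ι → Finset α := fun i => Y \ (A i ∪ B i) with hU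
  have hCD : ∀ i ∈ J, Disjoint (C i) (D i) := by
    intro i hi
    rw [hJm] at hi
    rw [Finset.disjoint_left]
    intro x hx hx'
    rw [hC, Finset.mem_sdiff] at hx
    rw [hD, Finset.mem_sdiff] at hx'
    exact hx.2 (hi (Finset.mem_inter.2 ⟨hx.1, hx'.1⟩))
  -- sizes
  have hAY : ∀ i, (A i ∩ Y).card + (C i).card = a := by
    intro i
    rw [hC, ← hA i]
    exact Finset.card_inter_add_card_sdiff _ _
  have hBY : ∀ i, (B i ∩ Y).card + (D i).card = b := by
    intro i
    rw [hD, ← hB i]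
    exact Finset.card_inter_add_card_sdiff _ _
  have hUc : ∀ i ∈ J, (U i).card = (C i).card + (D i).card := by
    intro i hi
    have h1 : (A i ∩ Y ∪ B i ∩ Y).card + ((A i ∩ Y) ∩ (B i ∩ Y)).card
        = (A i ∩ Y).card + (B i ∩ Y).card := Finset.card_union_add_card_inter _ _
    have h2 : (A i ∩ Y) ∩ (B i ∩ Y) = A i ∩ B i := by
      rw [hJm] at hi
      ext x
      simp only [Finset.mem_inter]
      constructor
      · rintro ⟨⟨h1, _⟩, h2, _⟩; exact ⟨h1, h2⟩
      · rintro ⟨h1, h2⟩
        have := hi (Finset.mem_inter.2 ⟨h1, h2⟩)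
        exact ⟨⟨h1, this⟩, h2, this⟩
    rw [h2, hAB i] at h1
    have h3 : U i = Y \ (A i ∩ Y ∪ B i ∩ Y) := by
      rw [hU]; ext x
      simp only [Finset.mem_sdiff, Finset.mem_union, Finset.mem_inter]
      tauto
    have h4 : A i ∩ Y ∪ B i ∩ Y ⊆ Y := by
      intro x hx
      simp only [Finset.mem_union, Finset.mem_inter] at hx
      tauto
    rw [h3, Finset.card_sdiff_of_subset h4, hY]
    have h5 := Finset.card_le_card h4
    have := hAY i
    have := hBY i
    rw [hY] at h5
    omega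
  refine average J C D hCD _ ?_
  intro f
  set Jf := J.filter (fun i => f ∈ good (C i) (D i)) with hJf
  have hJf1 : ∀ i ∈ Jf, i ∈ J := fun i hi => (Finset.mem_filter.1 hi).1
  have hJf2 : ∀ i ∈ Jf, ∀ x ∈ C i, ∀ y ∈ D i, f x < f y :=
    fun i hi => (mem_good _ _ _).1 (Finset.mem_filter.1 hi).2
  -- the completions
  set T : Finset (Σ _ : ι, Finset α) := Jf.sigma (fun i => (U i).powersetCard (C i).card) with hT
  have hTc : T.card = ∑ i ∈ Jf, ((C i).card + (D i).card).choose (C i).card := by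
    rw [hT, Finset.card_sigma]
    apply Finset.sum_congr rfl
    intro i hi
    rw [Finset.card_powersetCard, hUc i (hJf1 i hi)]
  rw [← hTc]
  have hTm : ∀ t ∈ T, t.1 ∈ Jf ∧ t.2 ⊆ U t.1 ∧ t.2.card = (C t.1).card := by
    intro t ht
    rw [hT, Finset.mem_sigma, Finset.mem_powersetCard] at ht
    exact ht
  set A' : (Σ _ : ι, Finset α) → Finset α := fun t => (A t.1 ∩ Y) ∪ t.2 with hA'
  set B' : (Σ _ : ι, Finset α) → Finset α := fun t => (B t.1 ∩ Y) ∪ (U t.1 \ t.2) with hB'
  have hUY : ∀ i, U i ⊆ Y := fun i => Finset.sdiff_subset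
  have hUn : ∀ i, ∀ x ∈ U i, x ∉ A i ∧ x ∉ B i := by
    intro i x hx
    rw [hU, Finset.mem_sdiff, Finset.mem_union, not_or] at hx
    exact hx.2
  have hint : ∀ t ∈ T, A' t ∩ B' t = A t.1 ∩ B t.1 := by
    intro t ht
    obtain ⟨h1, h2, h3⟩ := hTm t ht
    have h4 := (hJm t.1).1 (hJf1 _ h1)
    ext x
    rw [hA', hB']
    simp only [Finset.mem_inter, Finset.mem_union, Finset.mem_sdiff]
    constructor
    · rintro ⟨h5 | h5, h6 | h6⟩
      · exact ⟨h5.1, h6.1⟩
      · exact absurd h5.1 (hUn _ _ h6.1).1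
      · exact absurd h6.1 (hUn _ _ (h2 h5)).2
      · exact absurd h5 h6.2
    · rintro ⟨h5, h6⟩
      have h7 := h4 (Finset.mem_inter.2 ⟨h5, h6⟩)
      exact ⟨Or.inl ⟨h5, h7⟩, Or.inl ⟨h6, h7⟩⟩
  refine skew_bound T Y a b ha hab hY (J.image (fun i => A i ∩ B i)) ?_ A' B'
    (fun t => (C t.1).sup (fun x => (f x).val + 1)) ?_ ?_ ?_ ?_ ?_ ?_
  · intro e he
    rw [Finset.mem_image] at he
    obtain ⟨i, hi, rfl⟩ := he
    exact ⟨(hJm i).1 hi, hAB i⟩
  · intro t ht
    obtain ⟨h1, h2, h3⟩ := hTm t ht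
    exact Finset.union_subset Finset.inter_subset_right (h2.trans (hUY _))
  · intro t ht
    exact Finset.union_subset Finset.inter_subset_right (Finset.sdiff_subset.trans (hUY _))
  · intro t ht
    obtain ⟨h1, h2, h3⟩ := hTm t ht
    rw [hB']
    dsimp only
    rw [Finset.card_union_of_disjoint, Finset.card_sdiff_of_subset h2, hUc _ (hJf1 _ h1), h3]
    · have := hBY t.1
      omega
    · rw [Finset.disjoint_left]
      intro x hx hx'
      exact (hUn _ _ (Finset.mem_sdiff.1 hx').1).2 (Finset.mem_inter.1 hx).1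
  · intro t ht
    obtain ⟨h1, h2, h3⟩ := hTm t ht
    ext x
    rw [hA', hB']
    simp only [Finset.mem_inter, Finset.mem_union, Finset.mem_sdiff]
    constructor
    · rintro ((h5 | h5) | (h5 | h5))
      · exact h5.2
      · exact hUY _ (h2 h5)
      · exact h5.2
      · exact hUY _ h5.1
    · intro hx
      by_cases hxA : x ∈ A t.1
      · exact Or.inl (Or.inl ⟨hxA, hx⟩)
      · by_cases hxB : x ∈ B t.1
        · exact Or.inr (Or.inl ⟨hxB, hx⟩)
        · have hxU : x ∈ U t.1 := by
            rw [hU, Finset.mem_sdiff, Finset.mem_union, not_or]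
            exact ⟨hx, hxA, hxB⟩
          by_cases hxt : x ∈ t.2
          · exact Or.inl (Or.inr hxt)
          · exact Or.inr (Or.inr ⟨hxU, hxt⟩)
  · intro t ht
    rw [hint t ht, Finset.mem_image]
    exact ⟨t.1, hJf1 _ (hTm t ht).1, rfl⟩
  · intro p hp t ht hpt hmem
    obtain ⟨p1, p2, p3⟩ := hTm p hp
    obtain ⟨t1, t2, t3⟩ := hTm t ht
    rw [Finset.mem_image] at hmem
    obtain ⟨k, hk, hke⟩ := hmem
    by_cases heq : p.1 = t.1
    · -- the same pair
      exfalso
      obtain ⟨i, E⟩ := p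
      obtain ⟨j, F⟩ := t
      dsimp only at *
      subst heq
      have hEF : E ≠ F := fun h' => hpt (by rw [h'])
      have hnsub : ¬ E ⊆ F := by
        intro hs
        exact hEF (Finset.eq_of_subset_of_card_le hs (by rw [p3, t3]))
      obtain ⟨x, hxE, hxF⟩ := Finset.not_subset.1 hnsub
      have hxU := p2 hxE
      have hsub : insert x (A i ∩ B i) ⊆ A k ∩ B k := by
        rw [hke]
        intro y hy
        rw [Finset.mem_insert] at hy
        rw [hA', hB']
        simp only [Finset.mem_inter, Finset.mem_union, Finset.mem_sdiff]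
        rcases hy with rfl | hy
        · exact ⟨Or.inr hxE, Or.inr ⟨hxU, hxF⟩⟩
        · have hyY := (hJm i).1 (hJf1 _ p1) hy
          rw [Finset.mem_inter] at hy
          exact ⟨Or.inl ⟨hy.1, hyY⟩, Or.inl ⟨hy.2, hyY⟩⟩
      have hc := Finset.card_le_card hsub
      rw [Finset.card_insert_of_notMem, hAB, hAB] at hc
      · omega
      · intro hx
        exact (hUn _ _ hxU).1 (Finset.mem_inter.1 hx).1
    · -- different pairs
      have hns : ¬ A p.1 ∩ B t.1 ⊆ Y := by
        intro hs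
        apply h p.1 t.1 k heq
        intro x hx
        have hxY := hs hx
        rw [Finset.mem_inter] at hx
        rw [hke, hA', hB']
        simp only [Finset.mem_inter, Finset.mem_union]
        exact ⟨Or.inl ⟨hx.1, hxY⟩, Or.inl ⟨hx.2, hxY⟩⟩
      obtain ⟨x, hx, hxY⟩ := Finset.not_subset.1 hns
      rw [Finset.mem_inter] at hx
      have hxC : x ∈ C p.1 := Finset.mem_sdiff.2 ⟨hx.1, hxY⟩
      have hxD : x ∈ D t.1 := Finset.mem_sdiff.2 ⟨hx.2, hxY⟩
      have h1 : (C t.1).sup (fun x => (f x).val + 1) ≤ (f x).val := by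
        apply Finset.sup_le
        intro y hy
        exact hJf2 t.1 t1 y hy x hxD
      have h2 : (f x).val + 1 ≤ (C p.1).sup (fun x => (f x).val + 1) :=
        Finset.le_sup (f := fun x => (f x).val + 1) hxC
      show (C t.1).sup (fun x => (f x).val + 1) < (C p.1).sup (fun x => (f x).val + 1)
      omega

end Pool.Agent.H32.TF
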