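import Pool.Agent.H32.TF.Main
import Pool.Agent.H32.TF.Asym

/-!
Assembly of the asymptotic bound.
-/

set_option autoImplicit false
set_option linter.unusedVariables false
set_option linter.unusedSectionVars false

namespace Pool.Agent.H32.TF

open Finset

/-- The inequality for families of sets of natural numbers. -/
theorem main_nat (a b : ℕ) (ha : 2 ≤ a) (n : ℕ) (A B : Fin n → Finset ℕ)
    (hA : ∀ i, (A i).card = a) (hB : ∀ i, (B i).card = b) (hAB : ∀ i, (A i ∩ B i).card = 2)
    (h : ∀ i j k, i ≠ j → ¬ (A i ∩ B j ⊆ A k ∩ B k)) (x : ℝ) (hx : 0 ≤ x) :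
    (n : ℝ) * ((1 + x ^ 2) * ∑ k ∈ range (a - 2 + 1), ((a + b - 2).choose k : ℝ) * x ^ k)
      ≤ ((a + b - 2).choose (a - 2) : ℝ) * (1 + x) ^ (a + b - 2) := by
  set V : Finset ℕ := Finset.univ.biUnion (fun i => A i ∪ B i) with hV
  obtain ⟨N, hN⟩ : ∃ N, ∀ x ∈ V, x < N := ⟨V.sup id + 1, fun x hx => by
    have := Finset.le_sup (f := id) hx
    simp only [id] at this
    omega⟩
  have hAN : ∀ i, ∀ x ∈ A i, x < N := fun i x hx => hN x (by
    rw [hV, Finset.mem_biUnion]
    exact ⟨i, Finset.mem_univ _, Finset.mem_union_left _ hx⟩)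
  have hBN : ∀ i, ∀ x ∈ B i, x < N := fun i x hx => hN x (by
    rw [hV, Finset.mem_biUnion]
    exact ⟨i, Finset.mem_univ _, Finset.mem_union_right _ hx⟩)
  set A' : Fin n → Finset (Fin N) := fun i => (A i).attachFin (hAN i) with hA'
  set B' : Fin n → Finset (Fin N) := fun i => (B i).attachFin (hBN i) with hB'
  have mA : ∀ i x, x ∈ A' i ↔ x.val ∈ A i := fun i x => Finset.mem_attachFin _
  have mB : ∀ i x, x ∈ B' i ↔ x.val ∈ B i := fun i x => Finset.mem_attachFin _
  have hint : ∀ i j, ∀ x : Fin N, x ∈ A' i ∩ B' j ↔ x.val ∈ A i ∩ B j := by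
    intro i j x
    rw [Finset.mem_inter, Finset.mem_inter, mA, mB]
  have hcard : ∀ i, (A' i ∩ B' i).card = 2 := by
    intro i
    have e : A' i ∩ B' i = (A i ∩ B i).attachFin
        (fun x hx => hAN i x (Finset.mem_inter.1 hx).1) := by
      ext x
      rw [hint, Finset.mem_attachFin]
    rw [e, Finset.card_attachFin, hAB]
  have key := main_ineq a b ha A' B' (fun i => by rw [hA']; simp [hA])
    (fun i => by rw [hB']; simp [hB]) hcard ?_ x hx
  · rwa [Fintype.card_fin] at key
  · intro i j k hij hsub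
    apply h i j k hij
    intro x hx
    have hxN := hAN i x (Finset.mem_inter.1 hx).1
    have h1 : (⟨x, hxN⟩ : Fin N) ∈ A' i ∩ B' j := by
      rw [hint]; exact hx
    have h2 := hsub h1
    rw [hint] at h2
    exact h2

theorem log_le_half (x : ℝ) (hx : 0 < x) : 2 * Real.log x ≤ x := by
  have h1 := Real.log_le_sub_one_of_pos (show (0 : ℝ) < x / 2 by linarith)
  rw [Real.log_div (by linarith) (by norm_num)] at h1
  have h2 := Real.log_two_lt_d9
  linarith

theorem pow_log (k : ℕ) (x : ℝ) (hx : (2 : ℝ) ^ k ≤ x) : (k : ℝ) * 0.6931 ≤ Real.log x := by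
  have h1 : Real.log ((2 : ℝ) ^ k) ≤ Real.log x := Real.log_le_log (by positivity) hx
  rw [Real.log_pow] at h1
  have h2 := Real.log_two_gt_d9
  have h3 : (0 : ℝ) ≤ k := by positivity
  nlinarith

/-- lower bound for the error term when `a + b` is small -/
theorem small_y (M : ℝ) (h1 : 4 ≤ M) (h2 : M ≤ 202) : 3 ≤ 20 * Real.sqrt (Real.log M / M) := by
  have hlog : 0.0225 * M ≤ Real.log M := by
    rcases le_total M 61 with h | h
    · have := pow_log 2 M (by norm_num; linarith)
      norm_num at this ⊢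
      linarith
    · rcases le_total M 150 with h' | h'
      · have := pow_log 5 M (by norm_num; linarith)
        norm_num at this ⊢
        linarith
      · have := pow_log 7 M (by norm_num; linarith)
        norm_num at this ⊢
        linarith
  have h3 : (3 / 20 : ℝ) ^ 2 ≤ Real.log M / M := by
    rw [le_div_iff₀ (by linarith)]
    norm_num at hlog ⊢
    linarith
  have h4 : (3 / 20 : ℝ) ≤ Real.sqrt (Real.log M / M) := Real.le_sqrt_of_sq_le h3
  linarith

theorem asym (a b : ℕ) (ha : 2 ≤ a) (hab : a ≤ b) (m : ℕ) (A B : Fin m → Finset ℕ)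
    (hA : ∀ i, (A i).card = a) (hB : ∀ i, (B i).card = b) (hAB : ∀ i, (A i ∩ B i).card = 2)
    (h : ∀ i j k, i ≠ j → ¬ (A i ∩ B j ⊆ A k ∩ B k)) :
    (m : ℝ) ≤ (1 + 20 * Real.sqrt (Real.log ((a : ℝ) + b) / ((a : ℝ) + b)))
      * (s (a + b - 2) (a - 2) : ℝ) := by
  have key := main_nat a b ha m A B hA hB hAB h
  obtain ⟨r, rfl⟩ : ∃ r, a = r + 2 := ⟨a - 2, by omega⟩
  obtain ⟨q, rfl⟩ : ∃ q, b = q := ⟨b, rfl⟩
  have e1 : r + 2 + b - 2 = r + b := by omega
  have e2 : r + 2 - 2 = r := by omega
  rw [e1, e2] at key ⊢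
  have hM : ((r + 2 : ℕ) : ℝ) + b = (r : ℝ) + b + 2 := by push_cast; ring
  rw [hM]
  set n : ℝ := (r : ℝ) + b with hn
  set y : ℝ := Real.sqrt (Real.log (n + 2) / (n + 2)) with hy
  have hy0 : 0 ≤ y := Real.sqrt_nonneg _
  set C : ℝ := ((r + b).choose r : ℝ) with hC
  set S : ℝ := (s (r + b) r : ℝ) with hS
  have hS0 : 0 ≤ S := by rw [hS]; positivity
  have hC0 : 0 ≤ C := by rw [hC]; positivity
  have hm0 : (0 : ℝ) ≤ m := by positivity
  have hrb : (r : ℝ) + 2 ≤ b := by exact_mod_cast hab
  have hr0 : (0 : ℝ) ≤ r := by positivity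
  -- Bollobas
  have hmC : (m : ℝ) ≤ C := by
    have := key 0 le_rfl
    have e3 : ∑ k ∈ range (r + 1), ((r + b).choose k : ℝ) * (0 : ℝ) ^ k = 1 := by
      rw [Finset.sum_eq_single_of_mem 0 (by simp)]
      · simp
      · intro k _ hk
        rw [zero_pow hk, mul_zero]
    rw [e3] at this
    simpa using this
  have hn2 : 2 ≤ n := by rw [hn]; linarith
  rcases le_total n 200 with hsmall | hlarge
  · -- small parameters
    have h1 := small_y (n + 2) (by linarith) (by linarith)
    rw [← hy] at h1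
    have h2 : C ≤ 4 * S := by
      have h3 : ((r + b - 2).choose r : ℝ) ≤ S := by
        rw [hS]
        obtain ⟨c, hc⟩ : ∃ c, r + b = c + 2 := ⟨r + b - 2, by omega⟩
        have : (c).choose r ≤ s (c + 2) r := by
          cases r with
          | zero => simp [s]
          | succ r => show _ ≤ c.choose (r + 1) + 2 * s c r; omega
        rw [hc]
        have e4 : c + 2 - 2 = c := by omega
        rw [e4]
        exact_mod_cast this
      obtain ⟨b', hb'⟩ : ∃ b', b = b' + 2 := ⟨b - 2, by omega⟩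
      have a1 := Nat.choose_mul_succ_eq (r + b') r
      have a2 := Nat.choose_mul_succ_eq (r + b' + 1) r
      have b1 : r + b' + 1 - r = b' + 1 := by omega
      have b2 : r + b' + 1 + 1 - r = b' + 2 := by omega
      rw [b1] at a1
      rw [b2] at a2
      have a1' : ((r + b').choose r : ℝ) * ((r : ℝ) + b' + 1)
          = ((r + b' + 1).choose r : ℝ) * ((b' : ℝ) + 1) := by exact_mod_cast a1
      have a2' : ((r + b' + 1).choose r : ℝ) * ((r : ℝ) + b' + 2)
          = C * ((b' : ℝ) + 2) := by
        have : ((r + b' + 1).choose r : ℝ) * ((r : ℝ) + b' + 1 + 1)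
          = ((r + b' + 1 + 1).choose r : ℝ) * ((b' : ℝ) + 2) := by exact_mod_cast a2
        rw [hC, hb']
        linear_combination this
      have e5 : r + b - 2 = r + b' := by omega
      rw [e5] at h3
      have hrb' : (r : ℝ) ≤ b' := by
        have : r ≤ b' := by omega
        exact_mod_cast this
      have hb0 : (0 : ℝ) ≤ b' := by positivity
      have a3 : ((r + b').choose r : ℝ) * (((r : ℝ) + b' + 1) * ((r : ℝ) + b' + 2))
          = C * (((b' : ℝ) + 1) * ((b' : ℝ) + 2)) := by
        linear_combination ((r : ℝ) + b' + 2) * a1' + ((b' : ℝ) + 1) * a2'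
      have a4 : ((r : ℝ) + b' + 1) * ((r : ℝ) + b' + 2)
          ≤ 4 * (((b' : ℝ) + 1) * ((b' : ℝ) + 2)) := by nlinarith
      have a5 : 0 < ((r : ℝ) + b' + 1) * ((r : ℝ) + b' + 2) := by positivity
      have a6 : C * (((r : ℝ) + b' + 1) * ((r : ℝ) + b' + 2))
          ≤ (4 * ((r + b').choose r : ℝ)) * (((r : ℝ) + b' + 1) * ((r : ℝ) + b' + 2)) := by
        nlinarith [mul_le_mul_of_nonneg_left a4 hC0]
      have a7 := le_of_mul_le_mul_right a6 a5
      linarith
    nlinarith
  · -- large parameters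
    have hn0 : 0 < n := by linarith
    set L := Real.log n with hL
    have hLpos : 0 < L := Real.log_pos (by linarith)
    set d : ℝ := Real.sqrt (2 * L / n) with hd
    have hdsq : d ^ 2 = 2 * L / n := Real.sq_sqrt (by positivity)
    have hd0 : 0 < d := Real.sqrt_pos.2 (by positivity)
    have hd1 : d ≤ 1 := by
      have h0 : 2 * L / n ≤ 1 := by
        rw [div_le_one hn0]
        exact log_le_half n hn0
      rw [hd]
      exact Real.sqrt_le_one.2 h0
    have hd2 : 2 * Real.log ((r : ℝ) + b) ≤ ((r : ℝ) + b) * d ^ 2 := by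
      rw [← hn, hdsq, mul_div_cancel₀ _ hn0.ne']
    set g : ℝ := (b : ℝ) ^ 2 / ((b : ℝ) ^ 2 + (r : ℝ) ^ 2) with hg
    have hb0 : (0 : ℝ) < b := by linarith
    have hg2 : 1 / 2 ≤ g := by
      rw [hg, div_le_div_iff₀ (by norm_num) (by positivity)]
      nlinarith
    have hup : (m : ℝ) * (1 - 1 / n) ≤ C * (1 + 8 * d) * g := by
      rcases le_total (n * d) r with hc | hc
      · exact upper b r (by omega) m C d hm0 key hd0 hd1 hd2 (by rw [← hn]; exact hc)
      · have h1 : (m : ℝ) * (1 - 1 / n) ≤ C := by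
          have : 0 ≤ 1 / n := by positivity
          nlinarith
        have h2 : 1 ≤ (1 + 8 * d) * g := by
          rw [hg, mul_div_assoc', le_div_iff₀ (by positivity)]
          have h3 : (r : ℝ) ≤ b := by linarith
          have h4 : n ≤ 2 * b := by rw [hn]; linarith
          have h5 : (r : ℝ) ≤ 2 * b * d := by nlinarith
          nlinarith [mul_le_mul h5 h3 hr0 (by positivity), mul_pos hd0 (mul_pos hb0 hb0)]
        nlinarith
    have hlow : C * (g - 8 / n) ≤ S := by
      have h1 := low r b (by omega)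
      have e3 : b + r = r + b := by omega
      have e4 : (b : ℝ) + r = n := by rw [hn]; ring
      rw [e3, e4] at h1
      exact h1
    have h1 : C * g * (1 - 16 / n) ≤ S := by
      refine le_trans ?_ hlow
      have h2 : 0 ≤ 8 / n := by positivity
      have h3 : C * g * (1 - 16 / n) = C * (g - 8 / n * (2 * g)) := by ring
      rw [h3]
      apply mul_le_mul_of_nonneg_left _ hC0
      nlinarith
    -- the constants
    have hy2 : y ^ 2 = Real.log (n + 2) / (n + 2) := Real.sq_sqrt (by
      apply div_nonneg (Real.log_nonneg (by linarith)) (by linarith))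
    have hlogM : 4.85 ≤ Real.log (n + 2) := by
      have := pow_log 7 (n + 2) (by norm_num; linarith)
      norm_num at this ⊢
      linarith
    have hdy : d ^ 2 ≤ 2.02 * y ^ 2 := by
      rw [hdsq, hy2]
      have h2 : L ≤ Real.log (n + 2) := Real.log_le_log hn0 (by linarith)
      rw [mul_div_assoc', div_le_div_iff₀ hn0 (by linarith)]
      have h3 : 2 * (n + 2) ≤ 2.02 * n := by norm_num; linarith
      calc 2 * L * (n + 2) = L * (2 * (n + 2)) := by ring
        _ ≤ L * (2.02 * n) := mul_le_mul_of_nonneg_left h3 hLpos.le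
        _ ≤ Real.log (n + 2) * (2.02 * n) := mul_le_mul_of_nonneg_right h2 (by positivity)
        _ = 2.02 * Real.log (n + 2) * n := by ring
    have hdy' : d ≤ 1.43 * y := by
      have h2 : d ^ 2 ≤ (1.43 * y) ^ 2 := by
        refine hdy.trans ?_
        rw [mul_pow]
        apply mul_le_mul_of_nonneg_right _ (sq_nonneg y)
        norm_num
      exact (pow_le_pow_iff_left₀ hd0.le (by positivity) (by norm_num)).1 h2
    have hny : 17 / n ≤ 0.6 * y := by
      have h2 : (30 : ℝ) ^ 2 ≤ (n * y) ^ 2 := by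
        rw [mul_pow, hy2, mul_div_assoc', le_div_iff₀ (by linarith)]
        nlinarith
      have h3 : 30 ≤ n * y :=
        (pow_le_pow_iff_left₀ (by norm_num) (by positivity) (by norm_num)).1 h2
      rw [div_le_iff₀ hn0]
      norm_num at h3 ⊢
      nlinarith
    have hconst : (1 + 8 * d) ≤ (1 - 1 / n) * (1 - 16 / n) * (1 + 20 * y) := by
      have h2 : 1 - 17 / n ≤ (1 - 1 / n) * (1 - 16 / n) := by
        have : (1 - 1 / n) * (1 - 16 / n) = 1 - 17 / n + 16 / n ^ 2 := by
          field_simp; ring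
        rw [this]
        have : 0 ≤ 16 / n ^ 2 := by positivity
        linarith
      have h3 : (1 - 17 / n) * (1 + 20 * y) ≤ (1 - 1 / n) * (1 - 16 / n) * (1 + 20 * y) :=
        mul_le_mul_of_nonneg_right h2 (by positivity)
      refine le_trans ?_ h3
      have h4 : 17 / n ≤ 17 / 200 := by
        apply div_le_div_of_nonneg_left (by norm_num) (by norm_num) hlarge
      have h5 : 17 / n * (20 * y) ≤ 17 / 200 * (20 * y) :=
        mul_le_mul_of_nonneg_right h4 (by positivity)
      norm_num at h5 hny hdy' ⊢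
      nlinarith
    have hp1 : 0 < 1 - 1 / n := by
      have : 1 / n ≤ 1 / 200 := div_le_div_of_nonneg_left (by norm_num) (by norm_num) hlarge
      linarith
    have hp2 : 0 < 1 - 16 / n := by
      have : 16 / n ≤ 16 / 200 := div_le_div_of_nonneg_left (by norm_num) (by norm_num) hlarge
      linarith
    have hfin : ((1 - 1 / n) * (1 - 16 / n)) * (m : ℝ)
        ≤ ((1 - 1 / n) * (1 - 16 / n)) * ((1 + 20 * y) * S) := by
      calc ((1 - 1 / n) * (1 - 16 / n)) * (m : ℝ)
          = (1 - 16 / n) * ((m : ℝ) * (1 - 1 / n)) := by ring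
        _ ≤ (1 - 16 / n) * (C * (1 + 8 * d) * g) := mul_le_mul_of_nonneg_left hup hp2.le
        _ = (1 + 8 * d) * (C * g * (1 - 16 / n)) := by ring
        _ ≤ (1 + 8 * d) * S := mul_le_mul_of_nonneg_left h1 (by positivity)
        _ ≤ ((1 - 1 / n) * (1 - 16 / n) * (1 + 20 * y)) * S :=
            mul_le_mul_of_nonneg_right hconst hS0
        _ = _ := by ring
    exact le_of_mul_le_mul_left hfin (by positivity)

end Pool.Agent.H32.TF
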