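import Pool.Agent.H32.TF.Ring
import Pool.Agent.H32.TF.Ord

/-!
All layers on the whole ground set: an inequality for every system, on any ground set.
-/

set_option autoImplicit false
set_option linter.unusedVariables false
set_option linter.unusedSectionVars false

namespace Pool.Agent.H32.TF

open Finset

/-- **Skew systems on any ground set, the layer `k`.** -/
theorem skew_layer {α τ : Type} [DecidableEq α] (T : Finset τ) (Y : Finset α)
    (k : ℕ) (G : Finset (Finset α))
    (hG : ∀ e ∈ G, e ⊆ Y ∧ e.card = 2) (A B : τ → Finset α) (ord : τ → ℕ)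
    (hA : ∀ s ∈ T, A s ⊆ Y) (hB : ∀ s ∈ T, B s ⊆ Y)
    (hBc : ∀ s ∈ T, (Y \ B s).card = k)
    (hU : ∀ s ∈ T, A s ∪ B s = Y)
    (hd : ∀ s ∈ T, A s ∩ B s ∈ G)
    (ho : ∀ s ∈ T, ∀ t ∈ T, s ≠ t → A s ∩ B t ∈ G → ord t < ord s) :
    T.card ≤ s Y.card k := by
  classical
  set K := ZMod 2
  set z := gz K α with hz
  obtain ⟨W, hW⟩ := exists_W (K := K) z Y (fun _ => 1) G hG
  have h2 : (2 : RR K α) = 0 := by
    have h3 : (2 : K) = 0 := by decide
    have : (2 : RR K α) = algebraMap K (RR K α) 2 := by
      rw [map_ofNat]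
    rw [this, h3, map_zero]
  have hr := rank_le (K := K) h2 Y.card z Y W k rfl (fun y _ => gz_sq K α y)
  refine le_trans ?_ hr
  -- the vectors
  set u : T → RR K α := fun t => Q z Y W * ∏ y ∈ Y \ B t.1, z y with hu
  have hmem : ∀ t, u t ∈ MV K (Q z Y W) z Y k := by
    intro t
    apply mem_MV
    have h4 := prod_mem_V (K := K) z Y (Y \ B t.1) Finset.sdiff_subset
    rwa [hBc t.1 t.2] at h4
  have hval : ∀ s t : T, phi K α (A s.1) (u t) =
      ∑ e ∈ G, if Disjoint e (Y \ B t.1) ∧ e ∪ (Y \ B t.1) = A s.1 then (1 : K) else 0 := by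
    intro s t
    rw [hu]
    dsimp only
    rw [← hW, Finset.sum_mul, map_sum]
    apply Finset.sum_congr rfl
    intro e he
    rw [one_smul, hz, prod_mul_prod]
    by_cases h6 : Disjoint e (Y \ B t.1)
    · rw [if_pos h6, phi_prod]
      by_cases h7 : e ∪ (Y \ B t.1) = A s.1
      · rw [if_pos h7, if_pos ⟨h6, h7⟩]
      · rw [if_neg h7, if_neg (fun h => h7 h.2)]
    · rw [if_neg h6, map_zero, if_neg (fun h => h6 h.1)]
  have hint : ∀ s t : T, ∀ e ∈ G, Disjoint e (Y \ B t.1) → e ∪ (Y \ B t.1) = A s.1 →
      e = A s.1 ∩ B t.1 := by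
    intro s t e he h6 h7
    rw [← h7]
    ext x
    rw [Finset.mem_inter, Finset.mem_union, Finset.mem_sdiff]
    constructor
    · intro hx
      refine ⟨Or.inl hx, ?_⟩
      by_contra hxB
      exact (Finset.disjoint_left.1 h6 hx) (Finset.mem_sdiff.2 ⟨(hG e he).1 hx, hxB⟩)
    · rintro ⟨hx | hx, hxB⟩
      · exact hx
      · exact absurd hxB hx.2
  have hlin : LinearIndependent K u := by
    refine indep_of_tri (K := K) u (fun s => phi K α (A s.1)) (fun s => ord s.1) ?_ ?_
    · intro s
      rw [hval s s]
      rw [Finset.sum_eq_single_of_mem (A s.1 ∩ B s.1) (hd s.1 s.2)]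
      · rw [if_pos]
        · exact one_ne_zero
        · constructor
          · rw [Finset.disjoint_left]
            intro x hx hx'
            exact (Finset.mem_sdiff.1 hx').2 (Finset.mem_inter.1 hx).2
          · have h8 := hU s.1 s.2
            have h9 := hA s.1 s.2
            ext x
            rw [Finset.mem_union, Finset.mem_inter, Finset.mem_sdiff]
            constructor
            · rintro (hx | hx)
              · exact hx.1
              · rw [← h8, Finset.mem_union] at hx
                rcases hx.1 with h | h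
                · exact h
                · exact absurd h hx.2
            · intro hx
              by_cases hxB : x ∈ B s.1
              · exact Or.inl ⟨hx, hxB⟩
              · exact Or.inr ⟨h9 hx, hxB⟩
      · intro e he hne
        rw [if_neg]
        intro h
        exact hne (hint s s e he h.1 h.2)
    · intro s t hst hne
      rw [hval s t] at hne
      obtain ⟨e, he, hne'⟩ := Finset.exists_ne_zero_of_sum_ne_zero hne
      have h10 : Disjoint e (Y \ B t.1) ∧ e ∪ (Y \ B t.1) = A s.1 := by
        by_contra h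
        rw [if_neg h] at hne'
        exact hne' rfl
      have h11 := hint s t e he h10.1 h10.2
      refine ho s.1 s.2 t.1 t.2 (fun h => hst (Subtype.ext h)) ?_
      rw [← h11]; exact he
  have hlin2 : LinearIndependent K (fun t : T => (⟨u t, hmem t⟩ : MV K (Q z Y W) z Y k)) := by
    have : LinearIndependent K ((MV K (Q z Y W) z Y k).subtype ∘
        (fun t : T => (⟨u t, hmem t⟩ : MV K (Q z Y W) z Y k))) := hlin
    exact LinearIndependent.of_comp _ this
  have := hlin2.fintype_card_le_finrank
  rwa [Fintype.card_coe] at this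

/-- the generating function of the ranks -/
theorem sum_s_le (x : ℝ) (hx : 0 ≤ x) : ∀ (N K : ℕ),
    (1 + x ^ 2) * ∑ k ∈ range K, x ^ k * (s N k : ℝ) ≤ (1 + x) ^ N := by
  have hbin : ∀ N K : ℕ, ∑ k ∈ range K, x ^ k * (N.choose k : ℝ) ≤ (1 + x) ^ N := by
    intro N K
    have h1 : (1 + x) ^ N = ∑ k ∈ range (N + 1), x ^ k * (N.choose k : ℝ) := by
      rw [add_comm, add_pow]
      apply Finset.sum_congr rfl
      intro k _
      rw [one_pow, mul_one]
    rw [h1]
    rcases le_total K (N + 1) with h | h
    · apply Finset.sum_le_sum_of_subset_of_nonneg (Finset.range_subset_range.2 h)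
      intro i _ _
      positivity
    · rw [← Finset.sum_range_add_sum_Ico _ h]
      have : ∑ k ∈ Ico (N + 1) K, x ^ k * (N.choose k : ℝ) = 0 := by
        apply Finset.sum_eq_zero
        intro k hk
        rw [Finset.mem_Ico] at hk
        rw [Nat.choose_eq_zero_of_lt (by omega)]
        simp
      rw [this, add_zero]
  intro N
  induction N using Nat.strong_induction_on with
  | _ N ih =>
  intro K
  match N, ih with
  | 0, _ =>
    have : ∑ k ∈ range K, x ^ k * (s 0 k : ℝ) = 0 := by
      apply Finset.sum_eq_zero; intro k _; simp [s]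
    rw [this]; simp
  | 1, _ =>
    have : ∑ k ∈ range K, x ^ k * (s 1 k : ℝ) = 0 := by
      apply Finset.sum_eq_zero; intro k _; simp [s]
    rw [this]
    simp
    linarith
  | (N + 2), ih =>
    cases K with
    | zero => simp; positivity
    | succ K =>
      have ih' := ih N (by omega) K
      have e : ∑ k ∈ range (K + 1), x ^ k * (s (N + 2) k : ℝ)
          = ∑ k ∈ range (K + 1), x ^ k * (N.choose k : ℝ)
            + 2 * x * ∑ k ∈ range K, x ^ k * (s N k : ℝ) := by
        rw [Finset.sum_range_succ', Finset.sum_range_succ', Finset.mul_sum]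
        have e1 : ∑ k ∈ range K, x ^ (k + 1) * (s (N + 2) (k + 1) : ℝ)
            = ∑ k ∈ range K, x ^ (k + 1) * (N.choose (k + 1) : ℝ)
              + ∑ i ∈ range K, 2 * x * (x ^ i * (s N i : ℝ)) := by
          rw [← Finset.sum_add_distrib]
          apply Finset.sum_congr rfl
          intro k _
          have : (s (N + 2) (k + 1) : ℝ) = (N.choose (k + 1) : ℝ) + 2 * (s N k : ℝ) := by
            show ((N.choose (k + 1) + 2 * s N k : ℕ) : ℝ) = _
            push_cast; ring
          rw [this]; ring
        rw [e1]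
        have e2 : (s (N + 2) 0 : ℝ) = (N.choose 0 : ℝ) := by simp [s]
        rw [e2]; ring
      rw [e]
      have hb := hbin N (K + 1)
      calc (1 + x ^ 2) * (∑ k ∈ range (K + 1), x ^ k * (N.choose k : ℝ)
            + 2 * x * ∑ k ∈ range K, x ^ k * (s N k : ℝ))
          = (1 + x ^ 2) * ∑ k ∈ range (K + 1), x ^ k * (N.choose k : ℝ)
            + 2 * x * ((1 + x ^ 2) * ∑ k ∈ range K, x ^ k * (s N k : ℝ)) := by ring
        _ ≤ (1 + x ^ 2) * (1 + x) ^ N + 2 * x * (1 + x) ^ N := by
            gcongr
        _ = (1 + x) ^ (N + 2) := by ring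

section layers

variable {α ι : Type} [Fintype α] [DecidableEq α] [Fintype ι] [DecidableEq ι]

/-- the members for the order `f` -/
def members (A B : ι → Finset α) (f : α ≃ Fin (Fintype.card α)) :
    Finset (Σ _ : ι, Finset α × Finset α) :=
  (univ : Finset ι).sigma (fun i =>
    ((A i \ B i).powerset.filter (fun M => f ∈ good M (B i))) ×ˢ (univ \ (A i ∪ B i)).powerset)

theorem mem_members (A B : ι → Finset α) (f : α ≃ Fin (Fintype.card α))
    (t : Σ _ : ι, Finset α × Finset α) : t ∈ members A B f ↔
      t.2.1 ⊆ A t.1 \ B t.1 ∧ (∀ x ∈ t.2.1, ∀ y ∈ B t.1, f x < f y)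
        ∧ t.2.2 ⊆ univ \ (A t.1 ∪ B t.1) := by
  unfold members
  rw [Finset.mem_sigma, Finset.mem_product, Finset.mem_filter, Finset.mem_powerset, mem_good,
    Finset.mem_powerset]
  simp only [Finset.mem_univ, true_and, and_assoc]

theorem layer_bound (A B : ι → Finset α)
    (hAB : ∀ i, (A i ∩ B i).card = 2)
    (h : ∀ i j k, i ≠ j → ¬ (A i ∩ B j ⊆ A k ∩ B k)) (f : α ≃ Fin (Fintype.card α)) (k : ℕ) :
    ((members A B f).filter (fun t => ((A t.1 \ B t.1) \ t.2.1 ∪ t.2.2).card = k)).card
      ≤ s (Fintype.card α) k := by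
  classical
  set T := (members A B f).filter (fun t => ((A t.1 \ B t.1) \ t.2.1 ∪ t.2.2).card = k) with hT
  have hTm : ∀ t ∈ T, t.2.1 ⊆ A t.1 \ B t.1 ∧ (∀ x ∈ t.2.1, ∀ y ∈ B t.1, f x < f y)
        ∧ t.2.2 ⊆ univ \ (A t.1 ∪ B t.1) ∧ ((A t.1 \ B t.1) \ t.2.1 ∪ t.2.2).card = k := by
    intro t ht
    rw [hT, Finset.mem_filter, mem_members] at ht
    exact ⟨ht.1.1, ht.1.2.1, ht.1.2.2, ht.2⟩
  rw [← Finset.card_univ]
  refine skew_layer T univ k (univ.image (fun i => A i ∩ B i)) ?_
    (fun t => (A t.1 \ t.2.1) ∪ t.2.2) (fun t => univ \ ((A t.1 \ B t.1) \ t.2.1 ∪ t.2.2))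
    (fun t => (t.2.1).sup (fun x => (f x).val + 1)) ?_ ?_ ?_ ?_ ?_ ?_
  · intro e he
    rw [Finset.mem_image] at he
    obtain ⟨i, _, rfl⟩ := he
    exact ⟨Finset.subset_univ _, hAB i⟩
  · intro t _; exact Finset.subset_univ _
  · intro t _; exact Finset.subset_univ _
  · intro t ht
    obtain ⟨h1, h2, h3, h4⟩ := hTm t ht
    rw [← h4]
    congr 1
    ext x; simp
  · intro t ht
    ext x
    simp only [Finset.mem_union, Finset.mem_sdiff, Finset.mem_univ, true_and]
    tauto
  · intro t ht
    obtain ⟨h1, h2, h3, h4⟩ := hTm t ht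
    rw [Finset.mem_image]
    refine ⟨t.1, Finset.mem_univ _, ?_⟩
    ext x
    have a1 : x ∈ t.2.1 → x ∈ A t.1 ∧ x ∉ B t.1 := fun hx => Finset.mem_sdiff.1 (h1 hx)
    have a2 : x ∈ t.2.2 → ¬ (x ∈ A t.1 ∨ x ∈ B t.1) := fun hx => by
      have := (Finset.mem_sdiff.1 (h3 hx)).2
      rwa [Finset.mem_union] at this
    simp only [Finset.mem_inter, Finset.mem_union, Finset.mem_sdiff, Finset.mem_univ, true_and]
    tauto
  · intro p hp t ht hpt hmem
    obtain ⟨p1, p2, p3, p4⟩ := hTm p hp
    obtain ⟨t1, t2, t3, t4⟩ := hTm t ht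
    rw [Finset.mem_image] at hmem
    obtain ⟨l, _, hl⟩ := hmem
    by_cases heq : p.1 = t.1
    · exfalso
      obtain ⟨i, M, Z1⟩ := p
      obtain ⟨j, M2, Z2⟩ := t
      dsimp only at *
      subst heq
      -- the intersection contains `A i ∩ B i`, hence is equal to it
      have hsub : A i ∩ B i ⊆ A l ∩ B l := by
        rw [hl]
        intro y hy
        rw [Finset.mem_inter] at hy
        have a1 : y ∉ M := fun hx => (Finset.mem_sdiff.1 (p1 hx)).2 hy.2
        have a2 : y ∉ Z2 := fun hx => by
          have := (Finset.mem_sdiff.1 (t3 hx)).2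
          rw [Finset.mem_union] at this
          exact this (Or.inl hy.1)
        simp only [Finset.mem_inter, Finset.mem_union, Finset.mem_sdiff, Finset.mem_univ, true_and]
        tauto
      have heq2 : A i ∩ B i = A l ∩ B l :=
        Finset.eq_of_subset_of_card_le hsub (by rw [hAB, hAB])
      have hM : M2 ⊆ M := by
        intro y hy
        by_contra hyM
        have b1 := Finset.mem_sdiff.1 (t1 hy)
        have : y ∈ A l ∩ B l := by
          rw [hl]
          have a2 : y ∉ Z2 := fun hx => by
            have := (Finset.mem_sdiff.1 (t3 hx)).2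
            rw [Finset.mem_union] at this
            exact this (Or.inl b1.1)
          simp only [Finset.mem_inter, Finset.mem_union, Finset.mem_sdiff, Finset.mem_univ,
            true_and]
          tauto
        rw [← heq2, Finset.mem_inter] at this
        exact b1.2 this.2
      have hZ : Z1 ⊆ Z2 := by
        intro y hy
        by_contra hyZ
        have b1 := (Finset.mem_sdiff.1 (p3 hy)).2
        rw [Finset.mem_union, not_or] at b1
        have : y ∈ A l ∩ B l := by
          rw [hl]
          simp only [Finset.mem_inter, Finset.mem_union, Finset.mem_sdiff, Finset.mem_univ,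
            true_and]
          tauto
        rw [← heq2, Finset.mem_inter] at this
        exact b1.1 this.1
      have hd1 : Disjoint ((A i \ B i) \ M) Z1 := by
        rw [Finset.disjoint_left]
        intro y hy hy'
        have := (Finset.mem_sdiff.1 (p3 hy')).2
        rw [Finset.mem_union] at this
        exact this (Or.inl (Finset.mem_sdiff.1 (Finset.mem_sdiff.1 hy).1).1)
      have hd2 : Disjoint ((A i \ B i) \ M2) Z2 := by
        rw [Finset.disjoint_left]
        intro y hy hy'
        have := (Finset.mem_sdiff.1 (t3 hy')).2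
        rw [Finset.mem_union] at this
        exact this (Or.inl (Finset.mem_sdiff.1 (Finset.mem_sdiff.1 hy).1).1)
      rw [Finset.card_union_of_disjoint hd1, Finset.card_sdiff_of_subset p1] at p4
      rw [Finset.card_union_of_disjoint hd2, Finset.card_sdiff_of_subset t1] at t4
      have c1 := Finset.card_le_card hM
      have c2 := Finset.card_le_card hZ
      have c3 := Finset.card_le_card p1
      have c4 := Finset.card_le_card t1
      have e1 : M2 = M := Finset.eq_of_subset_of_card_le hM (by omega)
      have e2 : Z1 = Z2 := Finset.eq_of_subset_of_card_le hZ (by omega)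
      exact hpt (by rw [e1, e2])
    · have hns : ¬ A p.1 ∩ B t.1 ⊆ A l ∩ B l := h p.1 t.1 l heq
      obtain ⟨x, hx, hxl⟩ := Finset.not_subset.1 hns
      rw [Finset.mem_inter] at hx
      have hxM : x ∈ p.2.1 := by
        by_contra hxM
        apply hxl
        rw [hl]
        have a2 : x ∉ t.2.2 := fun hx' => by
          have := (Finset.mem_sdiff.1 (t3 hx')).2
          rw [Finset.mem_union] at this
          exact this (Or.inr hx.2)
        simp only [Finset.mem_inter, Finset.mem_union, Finset.mem_sdiff, Finset.mem_univ,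
          true_and]
        tauto
      have h1 : (t.2.1).sup (fun x => (f x).val + 1) ≤ (f x).val := by
        apply Finset.sup_le
        intro y hy
        exact t2 y hy x hx.2
      have h2 : (f x).val + 1 ≤ (p.2.1).sup (fun x => (f x).val + 1) :=
        Finset.le_sup (f := fun x => (f x).val + 1) hxM
      show (t.2.1).sup (fun x => (f x).val + 1) < (p.2.1).sup (fun x => (f x).val + 1)
      omega

end layers

end Pool.Agent.H32.TF
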