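import Pool.Agent.H32.TF.Layer

/-!
The inequality for every system on any ground set.
-/

set_option autoImplicit false
set_option linter.unusedVariables false
set_option linter.unusedSectionVars false

namespace Pool.Agent.H32.TF

open Finset

theorem choose_id (r b m : ℕ) (hm : m ≤ r) :
    (r + b).choose r * r.choose m = (r + b).choose (r - m) * (m + b).choose m := by
  have h := Nat.choose_mul (n := r + b) (k := r) (s := r - m) (by omega)
  rw [Nat.choose_symm hm] at h
  have e1 : r + b - (r - m) = m + b := by omega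
  have e2 : r - (r - m) = m := by omega
  rw [e1, e2] at h
  exact h

section

variable {α ι : Type} [Fintype α] [DecidableEq α] [Fintype ι] [DecidableEq ι]

/-- the weight of the members of one pair, summed over all orders -/
theorem pair_weight (R B Z : Finset α) (r b : ℕ) (hR : R.card = r) (hB : B.card = b)
    (hRB : Disjoint R B) (hRZ : Disjoint R Z) (x : ℝ) (hx : 0 ≤ x) :
    (Fintype.card (α ≃ Fin (Fintype.card α)) : ℝ) * (1 + x) ^ Z.card
        * (∑ k ∈ range (r + 1), ((r + b).choose k : ℝ) * x ^ k)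
      ≤ ((r + b).choose r : ℝ) * ∑ f : α ≃ Fin (Fintype.card α),
          ∑ p ∈ (R.powerset.filter (fun M => f ∈ good M B)) ×ˢ Z.powerset,
            x ^ (R \ p.1 ∪ p.2).card := by
  classical
  set Om : ℝ := (Fintype.card (α ≃ Fin (Fintype.card α)) : ℝ) with hOm
  have hZsum : ∑ Z' ∈ Z.powerset, x ^ Z'.card = (1 + x) ^ Z.card := by
    have := Finset.sum_pow_mul_eq_add_pow x 1 Z
    simp only [one_pow, mul_one] at this
    rw [this, add_comm]
  have h1 : ∑ f : α ≃ Fin (Fintype.card α),
          ∑ p ∈ (R.powerset.filter (fun M => f ∈ good M B)) ×ˢ Z.powerset,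
            x ^ (R \ p.1 ∪ p.2).card
      = ∑ M ∈ R.powerset, ((good M B).card : ℝ) * (x ^ (r - M.card) * (1 + x) ^ Z.card) := by
    have e1 : ∀ f : α ≃ Fin (Fintype.card α),
        ∑ p ∈ (R.powerset.filter (fun M => f ∈ good M B)) ×ˢ Z.powerset,
            x ^ (R \ p.1 ∪ p.2).card
        = ∑ M ∈ R.powerset, if f ∈ good M B then x ^ (r - M.card) * (1 + x) ^ Z.card else 0 := by
      intro f
      rw [Finset.sum_product, Finset.sum_filter]
      apply Finset.sum_congr rfl
      intro M hM
      rw [Finset.mem_powerset] at hM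
      by_cases hf : f ∈ good M B
      · rw [if_pos hf, if_pos hf, ← hZsum, Finset.mul_sum]
        apply Finset.sum_congr rfl
        intro Z' hZ'
        rw [Finset.mem_powerset] at hZ'
        have hd : Disjoint (R \ M) Z' :=
          Finset.disjoint_of_subset_left Finset.sdiff_subset
            (Finset.disjoint_of_subset_right hZ' hRZ)
        rw [Finset.card_union_of_disjoint hd, Finset.card_sdiff_of_subset hM, hR, pow_add]
      · rw [if_neg hf, if_neg hf]
    rw [Finset.sum_congr rfl (fun f _ => e1 f), Finset.sum_comm]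
    apply Finset.sum_congr rfl
    intro M _
    rw [← Finset.sum_filter, Finset.sum_const, nsmul_eq_mul]
    congr 2
    congr 1
    ext f
    simp
  rw [h1]
  have h2 : ∀ M ∈ R.powerset, Om * (x ^ (r - M.card) * (1 + x) ^ Z.card)
        * (1 / ((M.card + b).choose M.card : ℝ))
      ≤ ((good M B).card : ℝ) * (x ^ (r - M.card) * (1 + x) ^ Z.card) := by
    intro M hM
    rw [Finset.mem_powerset] at hM
    have h3 := card_orders_le M B (Finset.disjoint_of_subset_left hM hRB)
    rw [hB] at h3
    have h4 : Om ≤ ((M.card + b).choose M.card : ℝ) * ((good M B).card : ℝ) := by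
      rw [hOm]; exact_mod_cast h3
    have h5 : (0 : ℝ) < ((M.card + b).choose M.card : ℝ) := by
      exact_mod_cast Nat.choose_pos (by omega)
    have h6 : Om * (1 / ((M.card + b).choose M.card : ℝ)) ≤ ((good M B).card : ℝ) := by
      rw [mul_one_div, div_le_iff₀ h5]
      linarith
    have h7 : 0 ≤ x ^ (r - M.card) * (1 + x) ^ Z.card := by positivity
    calc Om * (x ^ (r - M.card) * (1 + x) ^ Z.card) * (1 / ((M.card + b).choose M.card : ℝ))
        = (Om * (1 / ((M.card + b).choose M.card : ℝ)))
            * (x ^ (r - M.card) * (1 + x) ^ Z.card) := by ring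
      _ ≤ _ := mul_le_mul_of_nonneg_right h6 h7
  have h8 := Finset.sum_le_sum h2
  have h9 : ((r + b).choose r : ℝ) * ∑ M ∈ R.powerset,
      Om * (x ^ (r - M.card) * (1 + x) ^ Z.card) * (1 / ((M.card + b).choose M.card : ℝ))
      = Om * (1 + x) ^ Z.card * (∑ k ∈ range (r + 1), ((r + b).choose k : ℝ) * x ^ k) := by
    rw [Finset.sum_powerset_apply_card
      (fun m => Om * (x ^ (r - m) * (1 + x) ^ Z.card) * (1 / ((m + b).choose m : ℝ))), hR]
    rw [← Finset.sum_flip (fun k => ((r + b).choose k : ℝ) * x ^ k), Finset.mul_sum,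
      Finset.mul_sum]
    apply Finset.sum_congr rfl
    intro m hm
    rw [Finset.mem_range] at hm
    have hid := choose_id r b m (by omega)
    have hid' : ((r + b).choose r : ℝ) * (r.choose m : ℝ)
        = ((r + b).choose (r - m) : ℝ) * ((m + b).choose m : ℝ) := by exact_mod_cast hid
    have h5 : ((m + b).choose m : ℝ) ≠ 0 := by
      have : 0 < (m + b).choose m := Nat.choose_pos (by omega)
      positivity
    rw [nsmul_eq_mul]
    field_simp
    linear_combination (Om * x ^ (r - m)) * hid'
  rw [← h9]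
  exact mul_le_mul_of_nonneg_left h8 (by positivity)

/-- **The inequality.** -/
theorem main_ineq (a b : ℕ) (ha : 2 ≤ a) (A B : ι → Finset α)
    (hA : ∀ i, (A i).card = a) (hB : ∀ i, (B i).card = b) (hAB : ∀ i, (A i ∩ B i).card = 2)
    (h : ∀ i j k, i ≠ j → ¬ (A i ∩ B j ⊆ A k ∩ B k)) (x : ℝ) (hx : 0 ≤ x) :
    (Fintype.card ι : ℝ) * ((1 + x ^ 2)
        * ∑ k ∈ range (a - 2 + 1), ((a + b - 2).choose k : ℝ) * x ^ k)
      ≤ ((a + b - 2).choose (a - 2) : ℝ) * (1 + x) ^ (a + b - 2) := by
  classical
  set N := Fintype.card α with hN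
  obtain ⟨r, hr⟩ : ∃ r, a = r + 2 := ⟨a - 2, by omega⟩
  have e1 : a - 2 = r := by omega
  have e2 : a + b - 2 = r + b := by omega
  rw [e1, e2]
  have hRc : ∀ i, (A i \ B i).card = r := by
    intro i
    have := Finset.card_sdiff_add_card_inter (A i) (B i)
    rw [hA, hAB] at this
    omega
  have hXc : ∀ i, (A i ∪ B i).card = r + b := by
    intro i
    have := Finset.card_union_add_card_inter (A i) (B i)
    rw [hA, hAB, hB] at this
    omega
  -- every order
  have hf : ∀ f : α ≃ Fin (Fintype.card α),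
      (1 + x ^ 2) * ∑ t ∈ members A B f, x ^ ((A t.1 \ B t.1) \ t.2.1 ∪ t.2.2).card
        ≤ (1 + x) ^ N := by
    intro f
    have e3 : ∑ t ∈ members A B f, x ^ ((A t.1 \ B t.1) \ t.2.1 ∪ t.2.2).card
        = ∑ k ∈ range (N + 1), x ^ k * (((members A B f).filter
            (fun t => ((A t.1 \ B t.1) \ t.2.1 ∪ t.2.2).card = k)).card : ℝ) := by
      rw [← Finset.sum_fiberwise_of_maps_to (s := members A B f) (t := range (N + 1))
        (g := fun t => ((A t.1 \ B t.1) \ t.2.1 ∪ t.2.2).card)]
      · apply Finset.sum_congr rfl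
        intro k _
        rw [Finset.sum_congr rfl (g := fun _ => x ^ k)]
        · rw [Finset.sum_const, nsmul_eq_mul, mul_comm]
        · intro t ht
          rw [Finset.mem_filter] at ht
          rw [ht.2]
      · intro t _
        rw [Finset.mem_range, hN]
        have := Finset.card_le_univ ((A t.1 \ B t.1) \ t.2.1 ∪ t.2.2)
        omega
    rw [e3]
    refine le_trans ?_ (sum_s_le x hx N (N + 1))
    apply mul_le_mul_of_nonneg_left _ (by positivity)
    apply Finset.sum_le_sum
    intro k _
    apply mul_le_mul_of_nonneg_left _ (by positivity)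
    exact_mod_cast layer_bound A B hAB h f k
  have hsum := Finset.sum_le_sum (fun (f : α ≃ Fin (Fintype.card α)) (_ : f ∈ univ) => hf f)
  rw [← Finset.mul_sum, Finset.sum_const, nsmul_eq_mul, Finset.card_univ] at hsum
  set Om : ℝ := (Fintype.card (α ≃ Fin (Fintype.card α)) : ℝ) with hOm
  have hOmpos : 0 < Om := by
    rw [hOm]
    exact_mod_cast Fintype.card_pos_iff.2 ⟨Fintype.equivFin α⟩
  have hswap : ∑ f : α ≃ Fin (Fintype.card α), ∑ t ∈ members A B f,
        x ^ ((A t.1 \ B t.1) \ t.2.1 ∪ t.2.2).card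
      = ∑ i : ι, ∑ f : α ≃ Fin (Fintype.card α),
          ∑ p ∈ ((A i \ B i).powerset.filter (fun M => f ∈ good M (B i)))
            ×ˢ (univ \ (A i ∪ B i)).powerset,
            x ^ ((A i \ B i) \ p.1 ∪ p.2).card := by
    rw [Finset.sum_comm]
    apply Finset.sum_congr rfl
    intro f _
    unfold members
    rw [Finset.sum_sigma]
  rw [hswap] at hsum
  -- the weights of the pairs
  have hw : ∀ i : ι, Om * (1 + x) ^ (N - (r + b))
        * (∑ k ∈ range (r + 1), ((r + b).choose k : ℝ) * x ^ k)
      ≤ ((r + b).choose r : ℝ) * ∑ f : α ≃ Fin (Fintype.card α),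
          ∑ p ∈ ((A i \ B i).powerset.filter (fun M => f ∈ good M (B i)))
            ×ˢ (univ \ (A i ∪ B i)).powerset,
            x ^ ((A i \ B i) \ p.1 ∪ p.2).card := by
    intro i
    have hZc : (univ \ (A i ∪ B i)).card = N - (r + b) := by
      rw [Finset.card_sdiff_of_subset (Finset.subset_univ _), Finset.card_univ, hXc, hN]
    have := pair_weight (A i \ B i) (B i) (univ \ (A i ∪ B i)) r b (hRc i) (hB i)
      Finset.sdiff_disjoint ?_ x hx
    · rw [hZc] at this
      exact this
    · rw [Finset.disjoint_left]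
      intro y hy hy'
      have := (Finset.mem_sdiff.1 hy').2
      rw [Finset.mem_union] at this
      exact this (Or.inl (Finset.mem_sdiff.1 hy).1)
  have hws := Finset.sum_le_sum (fun (i : ι) (_ : i ∈ univ) => hw i)
  rw [Finset.sum_const, nsmul_eq_mul, Finset.card_univ, ← Finset.mul_sum] at hws
  rcases isEmpty_or_nonempty ι with hι | ⟨⟨i0⟩⟩
  · rw [Fintype.card_eq_zero]
    rw [Nat.cast_zero, zero_mul]
    positivity
  have hNn : r + b ≤ N := by
    rw [← hXc i0, hN]
    exact Finset.card_le_univ _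
  -- conclusion
  set F := ∑ k ∈ range (r + 1), ((r + b).choose k : ℝ) * x ^ k with hF
  set T := ∑ i : ι, ∑ f : α ≃ Fin (Fintype.card α),
          ∑ p ∈ ((A i \ B i).powerset.filter (fun M => f ∈ good M (B i)))
            ×ˢ (univ \ (A i ∪ B i)).powerset,
            x ^ ((A i \ B i) \ p.1 ∪ p.2).card with hT
  have hpow : (1 + x) ^ N = (1 + x) ^ (N - (r + b)) * (1 + x) ^ (r + b) := by
    rw [← pow_add]; congr 1; omega
  have hpos : 0 < (1 + x) ^ (N - (r + b)) := by positivity
  have hfin : (Om * (1 + x) ^ (N - (r + b))) * ((Fintype.card ι : ℝ) * ((1 + x ^ 2) * F))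
      ≤ (Om * (1 + x) ^ (N - (r + b))) * (((r + b).choose r : ℝ) * (1 + x) ^ (r + b)) := by
    calc (Om * (1 + x) ^ (N - (r + b))) * ((Fintype.card ι : ℝ) * ((1 + x ^ 2) * F))
        = (1 + x ^ 2) * ((Fintype.card ι : ℝ) * (Om * (1 + x) ^ (N - (r + b)) * F)) := by ring
      _ ≤ (1 + x ^ 2) * (((r + b).choose r : ℝ) * T) :=
          mul_le_mul_of_nonneg_left hws (by positivity)
      _ = ((r + b).choose r : ℝ) * ((1 + x ^ 2) * T) := by ring
      _ ≤ ((r + b).choose r : ℝ) * (Om * (1 + x) ^ N) :=
          mul_le_mul_of_nonneg_left hsum (by positivity)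
      _ = _ := by rw [hpow]; ring
  exact le_of_mul_le_mul_left hfin (by positivity)

end

end Pool.Agent.H32.TF
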