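import Mathlib

/-!
Rank of the multiplication by a quadratic form in a commutative algebra of characteristic two
generated by elements of square zero.
-/

set_option autoImplicit false
set_option linter.unusedVariables false
set_option linter.unusedSectionVars false

namespace Pool.Agent.H32.TF

open Finset

/-- the bound for the rank -/
def s : ℕ → ℕ → ℕ
  | 0, _ => 0
  | 1, _ => 0
  | (_ + 2), 0 => 1
  | (n + 2), (k + 1) => n.choose (k + 1) + 2 * s n k

theorem s_eq : ∀ (a b : ℕ), 2 ≤ a → a ≤ b →
    ∑ i ∈ Finset.Icc 2 a, 2 ^ (i - 2) * (a + b - 2 * i).choose (a - i) = s (a + b - 2) (a - 2) := by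
  intro a
  induction a with
  | zero => intro b h; omega
  | succ a ih =>
    intro b h2 hab
    rcases Nat.lt_or_ge a 2 with ha | ha
    · obtain rfl : a = 1 := by omega
      obtain ⟨c, rfl⟩ : ∃ c, b = c + 2 := ⟨b - 2, by omega⟩
      have e1 : 1 + 1 + (c + 2) - 2 = c + 2 := by omega
      rw [e1]
      have e2 : (1 + 1 - 2 : ℕ) = 0 := rfl
      rw [e2]
      simp [s]
    · obtain ⟨b', rfl⟩ : ∃ b', b = b' + 1 := ⟨b - 1, by omega⟩
      have ih' := ih b' ha (by omega)
      obtain ⟨c, rfl⟩ : ∃ c, a = c + 2 := ⟨a - 2, by omega⟩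
      have e1 : c + 2 + 1 + (b' + 1) - 2 = (c + b') + 2 := by omega
      have e2 : c + 2 + 1 - 2 = c + 1 := by omega
      have e3 : c + 2 + b' - 2 = c + b' := by omega
      have e4 : c + 2 - 2 = c := by omega
      rw [e1, e2]
      show _ = (c + b').choose (c + 1) + 2 * s (c + b') c
      rw [e3, e4] at ih'
      rw [← ih']
      rw [← Finset.add_sum_Ioc_eq_sum_Icc (by omega : 2 ≤ c + 2 + 1)]
      congr 1
      · have : c + 2 + 1 + (b' + 1) - 2 * 2 = c + b' := by omega
        rw [this]
        have : c + 2 + 1 - 2 = c + 1 := by omega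
        rw [this]; simp
      · rw [Finset.mul_sum]
        symm
        apply Finset.sum_bij (fun i _ => i + 1)
        · intro i hi
          rw [Finset.mem_Icc] at hi
          rw [Finset.mem_Ioc]
          omega
        · intro i _ j _ hij
          omega
        · intro j hj
          rw [Finset.mem_Ioc] at hj
          exact ⟨j - 1, by rw [Finset.mem_Icc]; omega, by omega⟩
        · intro i hi
          rw [Finset.mem_Icc] at hi
          obtain ⟨j, rfl⟩ : ∃ j, i = j + 2 := ⟨i - 2, by omega⟩
          have f1 : j + 2 - 2 = j := by omega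
          have f2 : j + 2 + 1 - 2 = j + 1 := by omega
          have f3 : c + 2 + 1 + (b' + 1) - 2 * (j + 2 + 1) = c + 2 + b' - 2 * (j + 2) := by omega
          have f4 : c + 2 + 1 - (j + 2 + 1) = c + 2 - (j + 2) := by omega
          rw [f1, f2, f3, f4, pow_succ]
          ring

section alg

variable {K R ι : Type} [Field K] [CommRing R] [Algebra K R] [DecidableEq ι]

/-- span of the products of `k` of the elements `z y`, `y ∈ Y` -/
def V (K : Type) {R ι : Type} [Field K] [CommRing R] [Algebra K R]
    (z : ι → R) (Y : Finset ι) (k : ℕ) : Submodule K R :=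
  Submodule.span K ((fun T : Finset ι => ∏ y ∈ T, z y) '' (↑(Y.powersetCard k) : Set (Finset ι)))

/-- a quadratic form in the elements `z y` -/
def Q (z : ι → R) (Y : Finset ι) (W : ι → ι → K) : R :=
  ∑ u ∈ Y, ∑ v ∈ Y, W u v • (z u * z v)

instance (z : ι → R) (Y : Finset ι) (k : ℕ) : Module.Finite K (V K z Y k) := by
  unfold V
  apply FiniteDimensional.span_of_finite
  exact Set.Finite.image _ (Finset.finite_toSet _)

theorem finrank_V (z : ι → R) (Y : Finset ι) (k : ℕ) :
    Module.finrank K (V K z Y k) ≤ Y.card.choose k := by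
  classical
  unfold V
  have h : ((fun T : Finset ι => ∏ y ∈ T, z y) '' (↑(Y.powersetCard k) : Set (Finset ι)))
      = (((Y.powersetCard k).image (fun T : Finset ι => ∏ y ∈ T, z y) : Finset R) : Set R) := by
    rw [Finset.coe_image]
  rw [h]
  refine (finrank_span_finset_le_card _).trans ?_
  refine Finset.card_image_le.trans ?_
  rw [Finset.card_powersetCard]

theorem prod_mem_V (z : ι → R) (Y T : Finset ι) (hT : T ⊆ Y) :
    ∏ y ∈ T, z y ∈ V K z Y T.card :=
  Submodule.subset_span ⟨T, by
    rw [Finset.mem_coe, Finset.mem_powersetCard]; exact ⟨hT, rfl⟩, rfl⟩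

theorem mul_mem_V (z : ι → R) (Y : Finset ι) (hz : ∀ y ∈ Y, z y * z y = 0) (k : ℕ)
    (v : ι) (hv : v ∈ Y) (f : R) (hf : f ∈ V K z Y k) : z v * f ∈ V K z Y (k + 1) := by
  unfold V at hf
  induction hf using Submodule.span_induction with
  | mem x hx =>
    obtain ⟨T, hT, rfl⟩ := hx
    rw [Finset.mem_coe, Finset.mem_powersetCard] at hT
    obtain ⟨hT, hc⟩ := hT
    dsimp only
    by_cases hvT : v ∈ T
    · have : z v * ∏ y ∈ T, z y = 0 := by
        rw [← Finset.mul_prod_erase T z hvT, ← mul_assoc, hz v hv, zero_mul]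
      rw [this]
      exact Submodule.zero_mem _
    · rw [← Finset.prod_insert hvT]
      have := prod_mem_V (K := K) z Y (insert v T) (Finset.insert_subset hv hT)
      rwa [Finset.card_insert_of_notMem hvT, hc] at this
  | zero => rw [mul_zero]; exact Submodule.zero_mem _
  | add x y _ _ hx hy => rw [mul_add]; exact Submodule.add_mem _ hx hy
  | smul c x _ hx => rw [mul_smul_comm]; exact Submodule.smul_mem _ _ hx

theorem lin_mem_V (z : ι → R) (Y : Finset ι) (hz : ∀ y ∈ Y, z y * z y = 0) (k : ℕ)
    (c : ι → K) (f : R) (hf : f ∈ V K z Y k) : (∑ v ∈ Y, c v • z v) * f ∈ V K z Y (k + 1) := by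
  rw [Finset.sum_mul]
  apply Submodule.sum_mem
  intro v hv
  rw [smul_mul_assoc]
  exact Submodule.smul_mem _ _ (mul_mem_V z Y hz k v hv f hf)

theorem Q_mem_V (z : ι → R) (Y : Finset ι) (hz : ∀ y ∈ Y, z y * z y = 0) (k : ℕ)
    (W : ι → ι → K) (f : R) (hf : f ∈ V K z Y k) : Q z Y W * f ∈ V K z Y (k + 2) := by
  unfold Q
  rw [Finset.sum_mul]
  apply Submodule.sum_mem
  intro u hu
  rw [Finset.sum_mul]
  apply Submodule.sum_mem
  intro v hv
  rw [smul_mul_assoc, mul_assoc]
  exact Submodule.smul_mem _ _ (mul_mem_V z Y hz _ u hu _ (mul_mem_V z Y hz k v hv f hf))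

theorem sum_sq {β : Type} (h2 : (2 : R) = 0) (S : Finset β) (f : β → R)
    (hf : ∀ x ∈ S, f x * f x = 0) : (∑ x ∈ S, f x) * (∑ x ∈ S, f x) = 0 := by
  classical
  induction S using Finset.induction_on with
  | empty => simp
  | insert a S ha ih =>
    rw [Finset.sum_insert ha]
    have h1 := hf a (Finset.mem_insert_self _ _)
    have h3 := ih (fun x hx => hf x (Finset.mem_insert_of_mem hx))
    have : (f a + ∑ x ∈ S, f x) * (f a + ∑ x ∈ S, f x)
        = f a * f a + (∑ x ∈ S, f x) * (∑ x ∈ S, f x) + 2 * (f a * ∑ x ∈ S, f x) := by ring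
    rw [this, h1, h3, h2]
    ring

theorem lin_sq (h2 : (2 : R) = 0) (z : ι → R) (Y : Finset ι) (hz : ∀ y ∈ Y, z y * z y = 0)
    (c : ι → K) : (∑ v ∈ Y, c v • z v) * (∑ v ∈ Y, c v • z v) = 0 := by
  apply sum_sq h2
  intro x hx
  rw [smul_mul_smul_comm, hz x hx, smul_zero]

theorem Q_sq (h2 : (2 : R) = 0) (z : ι → R) (Y : Finset ι) (hz : ∀ y ∈ Y, z y * z y = 0)
    (W : ι → ι → K) : Q z Y W * Q z Y W = 0 := by
  unfold Q
  apply sum_sq h2
  intro u hu
  apply sum_sq h2
  intro v hv
  rw [smul_mul_smul_comm]
  have : z u * z v * (z u * z v) = (z u * z u) * (z v * z v) := by ring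
  rw [this, hz u hu, zero_mul, smul_zero]

theorem Q_split (z : ι → R) (Y : Finset ι) (W : ι → ι → K) (x y : ι) (hxy : x ≠ y) (hx : x ∉ Y)
    (hy : y ∉ Y) (hzx : z x * z x = 0) (hzy : z y * z y = 0) :
    Q z (insert x (insert y Y)) W
      = (W x y + W y x) • (z x * z y) + z x * (∑ v ∈ Y, (W x v + W v x) • z v)
        + z y * (∑ v ∈ Y, (W y v + W v y) • z v) + Q z Y W := by
  unfold Q
  have hx' : x ∉ insert y Y := by
    rw [Finset.mem_insert, not_or]; exact ⟨hxy, hx⟩
  rw [Finset.sum_insert hx', Finset.sum_insert hy]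
  simp only [Finset.sum_insert hx', Finset.sum_insert hy]
  rw [hzx, hzy, smul_zero, smul_zero, zero_add, zero_add, Finset.sum_add_distrib,
    Finset.sum_add_distrib, Finset.mul_sum, Finset.mul_sum]
  simp only [add_smul, mul_add, Finset.sum_add_distrib, mul_smul_comm]
  have e1 : ∑ v ∈ Y, W v x • (z v * z x) = ∑ v ∈ Y, W v x • (z x * z v) :=
    Finset.sum_congr rfl (fun v _ => by rw [mul_comm])
  have e2 : ∑ v ∈ Y, W v y • (z v * z y) = ∑ v ∈ Y, W v y • (z y * z v) :=
    Finset.sum_congr rfl (fun v _ => by rw [mul_comm])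
  rw [e1, e2, mul_comm (z y) (z x)]
  abel

theorem Q_sub (z : ι → R) (Y : Finset ι) (W : ι → ι → K) (p q : ι → K) (c : K) :
    Q z Y W - c • ((∑ v ∈ Y, q v • z v) * (∑ v ∈ Y, p v • z v))
      = Q z Y (fun u v => W u v - c * (q u * p v)) := by
  unfold Q
  rw [Finset.sum_mul_sum, Finset.smul_sum, ← Finset.sum_sub_distrib]
  apply Finset.sum_congr rfl
  intro u _
  rw [Finset.smul_sum, ← Finset.sum_sub_distrib]
  apply Finset.sum_congr rfl
  intro v _
  rw [sub_smul, smul_mul_smul_comm, smul_smul]

/-- the multiplication by `w` of `V` -/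
def MV (K : Type) {R ι : Type} [Field K] [CommRing R] [Algebra K R]
    (w : R) (z : ι → R) (Y : Finset ι) (k : ℕ) : Submodule K R :=
  (V K z Y k).map (LinearMap.mulLeft K w)

theorem mem_MV (w : R) (z : ι → R) (Y : Finset ι) (k : ℕ) (f : R) (hf : f ∈ V K z Y k) :
    w * f ∈ MV K w z Y k := by
  unfold MV
  exact ⟨f, hf, rfl⟩

instance (w : R) (z : ι → R) (Y : Finset ι) (k : ℕ) : Module.Finite K (MV K w z Y k) := by
  unfold MV
  infer_instance

theorem rank_le (h2 : (2 : R) = 0) : ∀ (n : ℕ) (z : ι → R) (Y : Finset ι) (W : ι → ι → K) (k : ℕ),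
    Y.card = n → (∀ y ∈ Y, z y * z y = 0) →
    Module.finrank K (MV K (Q z Y W) z Y k) ≤ s n k := by
  classical
  intro n
  induction n using Nat.strong_induction_on with
  | _ n ih =>
  intro z Y W k hn hz
  by_cases hW : ∀ x ∈ Y, ∀ y ∈ Y, x ≠ y → W x y + W y x = 0
  · -- the form is zero
    have hQ : Q z Y W = 0 := by
      clear ih hn
      induction Y using Finset.induction_on with
      | empty => simp [Q]
      | insert x Y hx ihY =>
        have h1 := ihY (fun y hy => hz y (Finset.mem_insert_of_mem hy))
          (fun u hu v hv => hW u (Finset.mem_insert_of_mem hu) v (Finset.mem_insert_of_mem hv))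
        unfold Q at h1 ⊢
        rw [Finset.sum_insert hx]
        simp only [Finset.sum_insert hx]
        rw [Finset.sum_add_distrib, h1, hz x (Finset.mem_insert_self _ _), smul_zero, zero_add,
          add_zero, ← Finset.sum_add_distrib]
        apply Finset.sum_eq_zero
        intro v hv
        rw [mul_comm (z v) (z x), ← add_smul, hW x (Finset.mem_insert_self _ _) v
          (Finset.mem_insert_of_mem hv) (fun h => hx (h ▸ hv)), zero_smul]
    rw [hQ]
    unfold MV
    have : LinearMap.mulLeft K (0 : R) = 0 := by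
      ext f; simp
    rw [this, Submodule.map_zero, finrank_bot]
    exact Nat.zero_le _
  · push Not at hW
    obtain ⟨x, hx, y, hy, hxy, hc⟩ := hW
    set c : K := W x y + W y x with hcdef
    -- remove the two points
    obtain ⟨Y', hY', hxY', hyY'⟩ : ∃ Y', Y = insert x (insert y Y') ∧ x ∉ Y' ∧ y ∉ Y' := by
      refine ⟨(Y.erase x).erase y, ?_, ?_, ?_⟩
      · rw [Finset.insert_erase (Finset.mem_erase.2 ⟨hxy.symm, hy⟩), Finset.insert_erase hx]
      · simp
      · simp
    have hcard : Y.card = Y'.card + 2 := by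
      rw [hY', Finset.card_insert_of_notMem, Finset.card_insert_of_notMem hyY']
      rw [Finset.mem_insert, not_or]; exact ⟨hxy, hxY'⟩
    have hz' : ∀ v ∈ Y', z v * z v = 0 := fun v hv => hz v (by
      rw [hY']; exact Finset.mem_insert_of_mem (Finset.mem_insert_of_mem hv))
    have hzx := hz x hx
    have hzy := hz y hy
    set p : R := ∑ v ∈ Y', (W x v + W v x) • z v with hp
    set q : R := ∑ v ∈ Y', (W y v + W v y) • z v with hq
    have hpp : p * p = 0 := lin_sq h2 z Y' hz' _
    have hqq : q * q = 0 := lin_sq h2 z Y' hz' _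
    set C : R := algebraMap K R c with hC
    set D : R := algebraMap K R c⁻¹ with hD
    have hCD : C * D = 1 := by
      rw [hC, hD, ← map_mul, mul_inv_cancel₀ hc, map_one]
    set X1 : R := z x + D * q with hX1
    set X2 : R := C * z y + p with hX2
    set W' : ι → ι → K := fun u v => W u v - c⁻¹ * ((W y u + W u y) * (W x v + W v x)) with hW'
    set w1 : R := Q z Y' W' with hw1
    have hQs : Q z Y W = X1 * X2 + w1 := by
      have e1 := Q_split z Y' W x y hxy hxY' hyY' hzx hzy
      have e2 := Q_sub z Y' W (fun v => W x v + W v x) (fun v => W y v + W v y) c⁻¹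
      rw [← hY'] at e1
      rw [hw1, hW', ← e2, e1]
      rw [Algebra.smul_def, Algebra.smul_def]
      rw [← hcdef]
      change C * (z x * z y) + z x * p + z y * q + Q z Y' W
        = X1 * X2 + (Q z Y' W - D * (q * p))
      rw [hX1, hX2]
      linear_combination (- z y * q) * hCD
    have hw1sq : w1 * w1 = 0 := Q_sq h2 z Y' hz' W'
    have hX1sq : X1 * X1 = 0 := by
      rw [hX1]
      linear_combination hzx + D ^ 2 * hqq + (z x * D * q) * h2
    have hX2sq : X2 * X2 = 0 := by
      rw [hX2]
      linear_combination C ^ 2 * hzy + hpp + (C * z y * p) * h2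
    cases k with
    | zero =>
      have h1 : Module.finrank K (MV K (Q z Y W) z Y 0) ≤ 1 := by
        unfold MV
        refine (Submodule.finrank_map_le _ _).trans ?_
        refine (finrank_V z Y 0).trans ?_
        simp
      obtain ⟨m, rfl⟩ : ∃ m, n = m + 2 := ⟨Y'.card, by omega⟩
      simpa [s] using h1
    | succ k =>
      obtain ⟨m, rfl⟩ : ∃ m, n = m + 2 := ⟨Y'.card, by omega⟩
      have hm : Y'.card = m := by omega
      have ihk := ih m (by omega) z Y' W' k hm hz'
      rw [← hw1] at ihk
      -- the three parts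
      set M1 := MV K (Q z Y W) z Y' (k + 1) with hM1
      set M2 := (MV K w1 z Y' k).map (LinearMap.mulLeft K X1) with hM2
      set M3 := (MV K w1 z Y' k).map (LinearMap.mulLeft K X2) with hM3
      have in1 : ∀ f ∈ V K z Y' (k + 1), Q z Y W * f ∈ M1 ⊔ M2 ⊔ M3 := fun f hf =>
        Submodule.mem_sup_left (Submodule.mem_sup_left (mem_MV _ z Y' _ f hf))
      have in2 : ∀ f ∈ V K z Y' k, X1 * (w1 * f) ∈ M1 ⊔ M2 ⊔ M3 := fun f hf =>
        Submodule.mem_sup_left (Submodule.mem_sup_right ⟨w1 * f, mem_MV _ z Y' _ f hf, rfl⟩)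
      have in3 : ∀ f ∈ V K z Y' k, X2 * (w1 * f) ∈ M1 ⊔ M2 ⊔ M3 := fun f hf =>
        Submodule.mem_sup_right ⟨w1 * f, mem_MV _ z Y' _ f hf, rfl⟩
      have alg_mem : ∀ (d : K) (g : R), g ∈ M1 ⊔ M2 ⊔ M3 →
          algebraMap K R d * g ∈ M1 ⊔ M2 ⊔ M3 := by
        intro d g hg
        rw [← Algebra.smul_def]
        exact Submodule.smul_mem _ _ hg
      have sub : MV K (Q z Y W) z Y (k + 1) ≤ M1 ⊔ M2 ⊔ M3 := by
        unfold MV V
        rw [Submodule.map_span, Submodule.span_le]
        rintro g ⟨f, ⟨T, hT, rfl⟩, rfl⟩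
        rw [Finset.mem_coe, Finset.mem_powersetCard] at hT
        obtain ⟨hT, hTc⟩ := hT
        rw [SetLike.mem_coe]
        show Q z Y W * ∏ v ∈ T, z v ∈ M1 ⊔ M2 ⊔ M3
        set T' := (T.erase x).erase y with hT'
        have hT'Y' : T' ⊆ Y' := by
          intro v hv
          rw [hT', Finset.mem_erase, Finset.mem_erase] at hv
          have := hT hv.2.2
          rw [hY', Finset.mem_insert, Finset.mem_insert] at this
          rcases this with h | h | h
          · exact absurd h hv.2.1
          · exact absurd h hv.1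
          · exact h
        have hPT' := prod_mem_V (K := K) z Y' T' hT'Y'
        set g : R := ∏ v ∈ T', z v with hg
        by_cases hxT : x ∈ T
        · have hprod1 : ∏ v ∈ T, z v = z x * ∏ v ∈ T.erase x, z v :=
            (Finset.mul_prod_erase T z hxT).symm
          have hc1 : (T.erase x).card = k := by
            rw [Finset.card_erase_of_mem hxT, hTc]; rfl
          by_cases hyT : y ∈ T.erase x
          · -- both
            have hprod2 : ∏ v ∈ T.erase x, z v = z y * g :=
              (Finset.mul_prod_erase (T.erase x) z hyT).symm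
            have hc2 : T'.card + 1 = k := by
              have h5 := Finset.card_erase_add_one hyT
              rw [hc1] at h5
              exact h5
            rw [hprod1, hprod2]
            have m1 : p * g ∈ V K z Y' k := by
              rw [← hc2]; exact lin_mem_V z Y' hz' _ _ _ hPT'
            have m2 : q * g ∈ V K z Y' k := by
              rw [← hc2]; exact lin_mem_V z Y' hz' _ _ _ hPT'
            have m3 : q * (p * g) ∈ V K z Y' (k + 1) := lin_mem_V z Y' hz' _ _ _ m1
            have m4 : w1 * g ∈ V K z Y' (k + 1) := by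
              have := Q_mem_V z Y' hz' T'.card W' g hPT'
              rw [← hc2]; exact this
            have key : Q z Y W * (z x * (z y * g))
                = D * (Q z Y W * (w1 * g)) - D * (X1 * (w1 * (p * g)))
                  - D * (D * (X2 * (w1 * (q * g)))) + D * (D * (Q z Y W * (q * (p * g)))) := by
              have hzx' : z x = X1 - D * q := by rw [hX1]; ring
              have hzy' : z y = D * (X2 - p) := by
                rw [hX2]; linear_combination (- z y) * hCD
              rw [hzx', hzy', hQs]
              linear_combination (D * g * (X2 * X2)) * hX1sq + (- D * p * g * X2) * hX1sq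
                + (- D * D * q * g * X1) * hX2sq - (D * g) * hw1sq
            rw [key]
            refine Submodule.add_mem _ (Submodule.sub_mem _ (Submodule.sub_mem _ ?_ ?_) ?_) ?_
            · exact alg_mem _ _ (in1 _ m4)
            · exact alg_mem _ _ (in2 _ m1)
            · exact alg_mem _ _ (alg_mem _ _ (in3 _ m2))
            · exact alg_mem _ _ (alg_mem _ _ (in1 _ m3))
          · -- only x
            have hT'e : T' = T.erase x := Finset.erase_eq_of_notMem hyT
            have hc2 : T'.card = k := by rw [hT'e, hc1]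
            rw [hprod1, ← hT'e, ← hg]
            rw [hc2] at hPT'
            have m1 : q * g ∈ V K z Y' (k + 1) := lin_mem_V z Y' hz' _ _ _ hPT'
            have key : Q z Y W * (z x * g) = X1 * (w1 * g) - D * (Q z Y W * (q * g)) := by
              have hzx' : z x = X1 - D * q := by rw [hX1]; ring
              rw [hzx', hQs]
              linear_combination (g * X2) * hX1sq
            rw [key]
            exact Submodule.sub_mem _ (in2 _ hPT') (alg_mem _ _ (in1 _ m1))
        · have hTx : T.erase x = T := Finset.erase_eq_of_notMem hxT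
          by_cases hyT : y ∈ T
          · -- only y
            have hprod1 : ∏ v ∈ T, z v = z y * g := by
              rw [hg, hT', hTx]; exact (Finset.mul_prod_erase T z hyT).symm
            have hc2 : T'.card = k := by
              rw [hT', hTx, Finset.card_erase_of_mem hyT, hTc]; rfl
            rw [hprod1]
            rw [hc2] at hPT'
            have m1 : p * g ∈ V K z Y' (k + 1) := lin_mem_V z Y' hz' _ _ _ hPT'
            have key : Q z Y W * (z y * g) = D * (X2 * (w1 * g)) - D * (Q z Y W * (p * g)) := by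
              have hzy' : z y = D * (X2 - p) := by
                rw [hX2]; linear_combination (- z y) * hCD
              rw [hzy', hQs]
              linear_combination (D * g * X1) * hX2sq
            rw [key]
            exact Submodule.sub_mem _ (alg_mem _ _ (in3 _ hPT')) (alg_mem _ _ (in1 _ m1))
          · -- none
            have hT'e : T' = T := by
              rw [hT', hTx]; exact Finset.erase_eq_of_notMem hyT
            rw [hT'e, hTc] at hPT'
            rw [← hT'e, ← hg]
            exact in1 _ hPT'
      have f1 : Module.finrank K M1 ≤ m.choose (k + 1) := by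
        rw [hM1]; unfold MV
        refine (Submodule.finrank_map_le _ _).trans ?_
        rw [← hm]
        exact finrank_V z Y' (k + 1)
      have f2 : Module.finrank K M2 ≤ s m k := (Submodule.finrank_map_le _ _).trans ihk
      have f3 : Module.finrank K M3 ≤ s m k := (Submodule.finrank_map_le _ _).trans ihk
      have g1 := Submodule.finrank_mono sub
      have g2 := Submodule.finrank_add_le_finrank_add_finrank M1 M2
      have g3 := Submodule.finrank_add_le_finrank_add_finrank (M1 ⊔ M2) M3
      show _ ≤ m.choose (k + 1) + 2 * s m k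
      omega

end alg

end Pool.Agent.H32.TF
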