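import Pool.Agent.H32.TF.Rank

/-!
The algebra of square free polynomials in characteristic two, and the bound for skew systems on a
ground set with `a + b - 2` points.
-/

set_option autoImplicit false
set_option linter.unusedVariables false
set_option linter.unusedSectionVars false

namespace Pool.Agent.H32.TF

open Finset

section ring

variable (K α : Type) [Field K] [DecidableEq α]

/-- the ideal generated by the squares of the variables -/
noncomputable def sqI : Ideal (MvPolynomial α K) :=
  Ideal.span (Set.range (fun i : α => (MvPolynomial.X i : MvPolynomial α K) ^ 2))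

/-- polynomials modulo the squares of the variables -/
abbrev RR : Type := MvPolynomial α K ⧸ sqI K α

/-- the generators -/
noncomputable def gz (i : α) : RR K α := Ideal.Quotient.mk (sqI K α) (MvPolynomial.X i)

theorem gz_sq (i : α) : gz K α i * gz K α i = 0 := by
  unfold gz
  rw [← map_mul, Ideal.Quotient.eq_zero_iff_mem]
  unfold sqI
  apply Ideal.subset_span
  exact ⟨i, by ring⟩

/-- exponent of the square free monomial -/
noncomputable def expo (A : Finset α) : α →₀ ℕ := ∑ i ∈ A, Finsupp.single i 1

theorem expo_apply (A : Finset α) (i : α) : expo α A i = if i ∈ A then 1 else 0 := by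
  unfold expo
  rw [Finsupp.finsetSum_apply]
  simp [Finsupp.single_apply]

theorem expo_inj (A B : Finset α) (h : expo α A = expo α B) : A = B := by
  ext i
  have h1 := expo_apply α A i
  have h2 := expo_apply α B i
  rw [h] at h1
  rw [h2] at h1
  by_cases hA : i ∈ A <;> by_cases hB : i ∈ B <;> simp_all

theorem coeff_ideal (A : Finset α) (p : MvPolynomial α K) (hp : p ∈ sqI K α) :
    MvPolynomial.coeff (expo α A) p = 0 := by
  have key : ∀ q : MvPolynomial α K, MvPolynomial.coeff (expo α A) (q * p) = 0 := by
    unfold sqI at hp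
    induction hp using Submodule.span_induction with
    | mem x hx =>
      obtain ⟨i, rfl⟩ := hx
      intro q
      dsimp only
      have : (MvPolynomial.X i : MvPolynomial α K) ^ 2
          = MvPolynomial.monomial (Finsupp.single i 2) 1 := by
        rw [MvPolynomial.X_pow_eq_monomial]
      rw [this, MvPolynomial.coeff_mul_monomial', if_neg]
      intro h
      have h1 := h i
      rw [expo_apply, Finsupp.single_eq_same] at h1
      split_ifs at h1 <;> omega
    | zero => intro q; rw [mul_zero]; exact MvPolynomial.coeff_zero _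
    | add x y _ _ hx hy => intro q; rw [mul_add, MvPolynomial.coeff_add, hx, hy, add_zero]
    | smul c x _ hx => intro q; rw [smul_eq_mul, ← mul_assoc]; exact hx _
  have := key 1
  rwa [one_mul] at this

/-- the coefficient of a square free monomial -/
noncomputable def phi (A : Finset α) : RR K α →ₗ[K] K :=
  (Submodule.liftQ ((sqI K α).restrictScalars K) (MvPolynomial.lcoeff K (expo α A))
    (by
      intro p hp
      rw [LinearMap.mem_ker, MvPolynomial.lcoeff_apply]
      exact coeff_ideal K α A p hp)).comp
    (Submodule.Quotient.restrictScalarsEquiv K (sqI K α)).symm.toLinearMap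

theorem phi_mk (A : Finset α) (p : MvPolynomial α K) :
    phi K α A (Ideal.Quotient.mk (sqI K α) p) = MvPolynomial.coeff (expo α A) p := rfl

theorem prod_gz (T : Finset α) : ∏ y ∈ T, gz K α y
    = Ideal.Quotient.mk (sqI K α) (MvPolynomial.monomial (expo α T) 1) := by
  unfold gz expo
  rw [← map_prod, MvPolynomial.monomial_sum_one]
  rfl

theorem phi_prod (A T : Finset α) : phi K α A (∏ y ∈ T, gz K α y) = if T = A then 1 else 0 := by
  rw [prod_gz, phi_mk, MvPolynomial.coeff_monomial]
  by_cases h : T = A
  · rw [if_pos h, if_pos (by rw [h])]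
  · rw [if_neg h, if_neg (fun h' => h (expo_inj α _ _ h'))]

theorem prod_mul_prod (S T : Finset α) : (∏ y ∈ S, gz K α y) * (∏ y ∈ T, gz K α y)
    = if Disjoint S T then ∏ y ∈ S ∪ T, gz K α y else 0 := by
  by_cases h : Disjoint S T
  · rw [if_pos h, Finset.prod_union h]
  · rw [if_neg h]
    rw [Finset.not_disjoint_iff] at h
    obtain ⟨x, hx, hx'⟩ := h
    rw [← Finset.mul_prod_erase S _ hx, ← Finset.mul_prod_erase T _ hx']
    have : gz K α x * (∏ y ∈ S.erase x, gz K α y) * (gz K α x * ∏ y ∈ T.erase x, gz K α y)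
        = (gz K α x * gz K α x) * ((∏ y ∈ S.erase x, gz K α y) * (∏ y ∈ T.erase x, gz K α y)) := by
      ring
    rw [this, gz_sq, zero_mul]

end ring

section form

variable {K R ι : Type} [Field K] [CommRing R] [Algebra K R] [DecidableEq ι]

theorem exists_W (z : ι → R) (Y : Finset ι) (w : Finset ι → K) (G : Finset (Finset ι))
    (hG : ∀ e ∈ G, e ⊆ Y ∧ e.card = 2) :
    ∃ W : ι → ι → K, ∑ e ∈ G, w e • ∏ y ∈ e, z y = Q z Y W := by
  classical
  induction G using Finset.induction_on with
  | empty => exact ⟨fun _ _ => 0, by simp [Q]⟩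
  | insert e G he ih =>
    obtain ⟨W, hW⟩ := ih (fun e' he' => hG e' (Finset.mem_insert_of_mem he'))
    obtain ⟨h1, h2⟩ := hG e (Finset.mem_insert_self _ _)
    obtain ⟨u, v, huv, rfl⟩ := Finset.card_eq_two.1 h2
    refine ⟨fun x y => W x y + if x = u ∧ y = v then w {u, v} else 0, ?_⟩
    rw [Finset.sum_insert he, hW]
    unfold Q
    simp only [add_smul, Finset.sum_add_distrib]
    rw [add_comm]
    congr 1
    rw [Finset.sum_eq_single_of_mem u (h1 (by simp)), Finset.sum_eq_single_of_mem v (h1 (by simp))]
    · rw [if_pos ⟨rfl, rfl⟩, Finset.prod_pair huv]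
    · intro y _ hy
      rw [if_neg (fun h => hy h.2), zero_smul]
    · intro x _ hx
      apply Finset.sum_eq_zero
      intro y _
      rw [if_neg (fun h => hx h.1), zero_smul]

end form

/-- linear independence from a triangular matrix -/
theorem indep_of_tri {K M τ : Type} [Field K] [AddCommGroup M] [Module K M] [Fintype τ]
    [DecidableEq τ] (u : τ → M) (f : τ → M →ₗ[K] K) (ord : τ → ℕ)
    (hd : ∀ s, f s (u s) ≠ 0) (ho : ∀ s t, s ≠ t → f s (u t) ≠ 0 → ord t < ord s) :
    LinearIndependent K u := by
  classical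
  rw [Fintype.linearIndependent_iff]
  intro g hg
  by_contra hcon
  push Not at hcon
  obtain ⟨i0, hi0⟩ := hcon
  obtain ⟨s, hs, hmin⟩ := Finset.exists_min_image (univ.filter (fun i => g i ≠ 0)) ord
    ⟨i0, by simpa using hi0⟩
  rw [Finset.mem_filter] at hs
  have h1 : f s (∑ t, g t • u t) = 0 := by rw [hg, map_zero]
  rw [map_sum, Finset.sum_eq_single_of_mem s (Finset.mem_univ s)] at h1
  · rw [map_smul, smul_eq_mul] at h1
    exact (mul_ne_zero hs.2 (hd s)) h1
  · intro t _ hts
    rw [map_smul, smul_eq_mul]
    by_cases hgt : g t = 0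
    · rw [hgt, zero_mul]
    · have h2 := hmin t (by rw [Finset.mem_filter]; exact ⟨Finset.mem_univ _, hgt⟩)
      by_cases hf : f s (u t) = 0
      · rw [hf, mul_zero]
      · exact absurd (ho s t hts.symm hf) (not_lt.2 h2)

/-- **Skew systems on `a + b - 2` points.** -/
theorem skew_bound {α τ : Type} [DecidableEq α] (T : Finset τ) (Y : Finset α)
    (a b : ℕ) (ha : 2 ≤ a) (hab : a ≤ b) (hY : Y.card = a + b - 2) (G : Finset (Finset α))
    (hG : ∀ e ∈ G, e ⊆ Y ∧ e.card = 2) (A B : τ → Finset α) (ord : τ → ℕ)
    (hA : ∀ s ∈ T, A s ⊆ Y) (hB : ∀ s ∈ T, B s ⊆ Y)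
    (hBc : ∀ s ∈ T, (B s).card = b)
    (hU : ∀ s ∈ T, A s ∪ B s = Y)
    (hd : ∀ s ∈ T, A s ∩ B s ∈ G)
    (ho : ∀ s ∈ T, ∀ t ∈ T, s ≠ t → A s ∩ B t ∈ G → ord t < ord s) :
    T.card ≤ s (a + b - 2) (a - 2) := by
  classical
  set K := ZMod 2
  set z := gz K α with hz
  obtain ⟨W, hW⟩ := exists_W (K := K) z Y (fun _ => 1) G hG
  have h2 : (2 : RR K α) = 0 := by
    have h3 : (2 : K) = 0 := by decide
    have : (2 : RR K α) = algebraMap K (RR K α) 2 := by
      rw [map_ofNat]
    rw [this, h3, map_zero]
  have hr := rank_le (K := K) h2 (a + b - 2) z Y W (a - 2) hY (fun y _ => gz_sq K α y)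
  refine le_trans ?_ hr
  -- the vectors
  set u : T → RR K α := fun t => Q z Y W * ∏ y ∈ Y \ B t.1, z y with hu
  have hmem : ∀ t, u t ∈ MV K (Q z Y W) z Y (a - 2) := by
    intro t
    apply mem_MV
    have h4 := prod_mem_V (K := K) z Y (Y \ B t.1) Finset.sdiff_subset
    have h5 : (Y \ B t.1).card = a - 2 := by
      rw [Finset.card_sdiff_of_subset (hB t.1 t.2), hY, hBc t.1 t.2]
      omega
    rwa [h5] at h4
  have hval : ∀ s t : T, phi K α (A s.1) (u t) =
      ∑ e ∈ G, if Disjoint e (Y \ B t.1) ∧ e ∪ (Y \ B t.1) = A s.1 then (1 : K) else 0 := by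
    intro s t
    rw [hu]
    dsimp only
    rw [← hW, Finset.sum_mul, map_sum]
    apply Finset.sum_congr rfl
    intro e he
    rw [one_smul, hz, prod_mul_prod]
    by_cases h6 : Disjoint e (Y \ B t.1)
    · rw [if_pos h6, phi_prod]
      by_cases h7 : e ∪ (Y \ B t.1) = A s.1
      · rw [if_pos h7, if_pos ⟨h6, h7⟩]
      · rw [if_neg h7, if_neg (fun h => h7 h.2)]
    · rw [if_neg h6, map_zero, if_neg (fun h => h6 h.1)]
  have hint : ∀ s t : T, ∀ e ∈ G, Disjoint e (Y \ B t.1) → e ∪ (Y \ B t.1) = A s.1 →
      e = A s.1 ∩ B t.1 := by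
    intro s t e he h6 h7
    rw [← h7]
    ext x
    rw [Finset.mem_inter, Finset.mem_union, Finset.mem_sdiff]
    constructor
    · intro hx
      refine ⟨Or.inl hx, ?_⟩
      by_contra hxB
      exact (Finset.disjoint_left.1 h6 hx) (Finset.mem_sdiff.2 ⟨(hG e he).1 hx, hxB⟩)
    · rintro ⟨hx | hx, hxB⟩
      · exact hx
      · exact absurd hxB hx.2
  have hlin : LinearIndependent K u := by
    refine indep_of_tri (K := K) u (fun s => phi K α (A s.1)) (fun s => ord s.1) ?_ ?_
    · intro s
      rw [hval s s]
      rw [Finset.sum_eq_single_of_mem (A s.1 ∩ B s.1) (hd s.1 s.2)]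
      · rw [if_pos]
        · exact one_ne_zero
        · constructor
          · rw [Finset.disjoint_left]
            intro x hx hx'
            exact (Finset.mem_sdiff.1 hx').2 (Finset.mem_inter.1 hx).2
          · have h8 := hU s.1 s.2
            have h9 := hA s.1 s.2
            ext x
            rw [Finset.mem_union, Finset.mem_inter, Finset.mem_sdiff]
            constructor
            · rintro (hx | hx)
              · exact hx.1
              · rw [← h8, Finset.mem_union] at hx
                rcases hx.1 with h | h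
                · exact h
                · exact absurd h hx.2
            · intro hx
              by_cases hxB : x ∈ B s.1
              · exact Or.inl ⟨hx, hxB⟩
              · exact Or.inr ⟨h9 hx, hxB⟩
      · intro e he hne
        rw [if_neg]
        intro h
        exact hne (hint s s e he h.1 h.2)
    · intro s t hst hne
      rw [hval s t] at hne
      obtain ⟨e, he, hne'⟩ := Finset.exists_ne_zero_of_sum_ne_zero hne
      have h10 : Disjoint e (Y \ B t.1) ∧ e ∪ (Y \ B t.1) = A s.1 := by
        by_contra h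
        rw [if_neg h] at hne'
        exact hne' rfl
      have h11 := hint s t e he h10.1 h10.2
      refine ho s.1 s.2 t.1 t.2 (fun h => hst (Subtype.ext h)) ?_
      rw [← h11]; exact he
  have hlin2 : LinearIndependent K (fun t : T => (⟨u t, hmem t⟩ : MV K (Q z Y W) z Y (a - 2))) := by
    have : LinearIndependent K ((MV K (Q z Y W) z Y (a - 2)).subtype ∘
        (fun t : T => (⟨u t, hmem t⟩ : MV K (Q z Y W) z Y (a - 2)))) := hlin
    exact LinearIndependent.of_comp _ this
  have := hlin2.fintype_card_le_finrank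
  rwa [Fintype.card_coe] at this

end Pool.Agent.H32.TF
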